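import Mathlib.Topology.Sheaves.Presheaf
import Mathlib.Tactic.Monotonicity.Lemmas
import Mathlib.Data.Int.Star
import Mathlib.Algebra.Order.Ring.Star
import Mathlib.LinearAlgebra.Matrix.Rank
import Mathlib.RingTheory.PicardGroup
import Mathlib.Analysis.CStarAlgebra.Classes
import Mathlib.Analysis.SpecialFunctions.Complex.LogBounds
import Mathlib.Order.Filter.FilterProduct
import Mathlib.FieldTheory.Differential.Basic
import Mathlib.RingTheory.PiTensorProduct
import Mathlib.NumberTheory.Height.NumberField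
import Mathlib.RingTheory.SimpleRing.Principal
import Mathlib.RingTheory.TotallySplit
import Mathlib.RingTheory.Henselian
import Mathlib.RingTheory.MvPolynomial.IrreducibleQuadratic
import Mathlib.RingTheory.RegularLocalRing.Defs
import Mathlib.Tactic.Polynomial.Basic

-- ======== part 0: formerly Pool.Agent.MP_3e7261_nt.Count
section MrgPart0

/-! A counting argument: negligible relations between small logarithms are stable under
derivations. -/

set_option autoImplicit false
set_option linter.unusedSectionVars false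

namespace Pool.Agent.MP_3e7261_nt

open MvPolynomial Finset

variable {σ : Type} [Fintype σ] [DecidableEq σ]

section Der

variable {A : Type*} [CommRing A]

/-- Apply a derivation to the coefficients. -/
noncomputable def mapD (d : Derivation ℤ A A) (f : MvPolynomial σ A) : MvPolynomial σ A :=
  AddMonoidAlgebra.map d.toLinearMap.toAddMonoidHom f

theorem coeff_mapD (d : Derivation ℤ A A) (f : MvPolynomial σ A) (m : σ →₀ ℕ) :
    coeff m (mapD d f) = d (coeff m f) := rfl

/-- The derivation of `A[X]` that extends `d` and sends `X i` to `p i`. -/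
noncomputable def tD (d : Derivation ℤ A A) (p : σ → A) :
    Derivation ℤ (MvPolynomial σ A) (MvPolynomial σ A) :=
  Derivation.mk' (AddMonoidHom.toIntLinearMap
    { toFun := fun f => mapD d f + ∑ i, C (p i) * pderiv i f
      map_zero' := by simp [mapD]
      map_add' := fun f g => by
        simp only [mapD, AddMonoidAlgebra.map_add, map_add, mul_add, sum_add_distrib]
        ring }) fun f g => by
    have h : mapD d (f * g) = f * mapD d g + mapD d f * g := by
      ext m
      simp only [coeff_mapD, coeff_add, coeff_mul, map_sum, Derivation.leibniz, smul_eq_mul,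
        sum_add_distrib, mul_comm (d _)]
    simp only [AddMonoidHom.coe_toIntLinearMap, AddMonoidHom.coe_mk, ZeroHom.coe_mk, h,
      Derivation.leibniz, smul_eq_mul, mul_add, sum_add_distrib, mul_sum, mul_left_comm]
    ring

theorem coeff_tD (d : Derivation ℤ A A) (p : σ → A) (f : MvPolynomial σ A) (m : σ →₀ ℕ) :
    coeff m (tD d p f) =
      d (coeff m f) + ∑ i, p i * (coeff (m + Finsupp.single i 1) f * (m i + 1)) := by
  simp [tD, coeff_sum, coeff_pderiv, coeff_mapD]

theorem tD_C (d : Derivation ℤ A A) (p : σ → A) (a : A) : tD d p (C a) = C (d a) := by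
  ext m
  simp [tD, coeff_C, apply_ite d, coeff_mapD]

theorem tD_X (d : Derivation ℤ A A) (p : σ → A) (i : σ) : tD d p (X i) = C (p i) := by
  have : mapD d (X i : MvPolynomial σ A) = 0 := by
    ext m
    simp [coeff_X, apply_ite d, coeff_mapD]
  simp [tD, this, pderiv_X, Pi.single_apply]

theorem der_pow (d : Derivation ℤ A A) (I : Ideal A) (k : ℕ) {a : A} (h : a ∈ I ^ (k + 1)) :
    d a ∈ I ^ k := by
  induction k generalizing a with
  | zero => simp
  | succ k ih =>
    rw [pow_succ] at h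
    refine Submodule.mul_induction_on h (fun a ha b hb => ?_) fun a b ha hb => ?_
    · rw [d.leibniz, smul_eq_mul, smul_eq_mul]
      refine Ideal.add_mem _ (Ideal.mul_mem_right _ _ ha) ?_
      rw [pow_succ']
      exact Ideal.mul_mem_mul hb (ih ha)
    · rw [map_add]
      exact Ideal.add_mem _ ha hb

theorem iterate_pow (D : Derivation ℤ A A) (g h : A) (l m : ℕ) :
    ∃ (c : ℕ) (r : A), 0 < c ∧
      D^[l] (g ^ (l + m) * h) = c * (D g ^ l * (g ^ m * h)) + g ^ (m + 1) * r := by
  induction l generalizing m with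
  | zero => exact ⟨1, 0, one_pos, by simp⟩
  | succ l ih =>
    obtain ⟨c, r, hc, e⟩ := ih (m + 1)
    refine ⟨c * (m + 1), c * (D (D g ^ l) * h + D g ^ l * D h) + (m + 2) * D g * r + g * D r,
      by positivity, ?_⟩
    rw [Function.iterate_succ_apply', show l + 1 + m = l + (m + 1) by ring, e]
    rw [pow_succ (D g) l]
    generalize D g ^ l = y
    simp only [map_add, Derivation.leibniz, Derivation.leibniz_pow, Derivation.map_natCast,
      smul_eq_mul, nsmul_eq_mul, add_tsub_cancel_right]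
    push_cast
    ring

end Der

variable {A : Type*} [CommRing A] [Algebra ℚ A]

/-- The Taylor polynomial of `log (1 + y)`. -/
noncomputable def LT (k : ℕ) (y : A) : A := ∑ j ∈ range k, ((-1) ^ (j + 1) / j : ℚ) • y ^ j

theorem map_LT {B F : Type*} [CommRing B] [Algebra ℚ B] [FunLike F A B] [RingHomClass F A B]
    (φ : F) (k : ℕ) (y : A) : φ (LT k y) = LT k (φ y) := by
  simp [LT, map_rat_smul]

theorem der_LT (d : Derivation ℤ A A) (k : ℕ) {y p : A} (h : d y = p * (1 + y)) :
    d (LT (k + 1) y) = p - p * (-y) ^ k := by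
  induction k with
  | zero => simp [LT]
  | succ k ih =>
    rw [LT, sum_range_succ, map_add, ← LT, ih, map_rat_smul, d.leibniz_pow, h, ← Nat.cast_smul_eq_nsmul ℚ,
      smul_smul, div_mul_cancel₀ _ (by positivity), Algebra.smul_def, neg_pow y, neg_pow y]
    simp only [map_pow, map_neg, map_one, add_tsub_cancel_right, smul_eq_mul]
    ring

/-- The span of the monomials of partial degrees at most `d`. -/
def W (u : σ → A) (d : ℕ) : Submodule ℚ A :=
  Submodule.span ℚ (Set.range fun e : σ → Fin (d + 1) => ∏ i, u i ^ (e i : ℕ))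

instance (u : σ → A) (d : ℕ) : Module.Finite ℚ (W u d) :=
  Module.Finite.span_of_finite ℚ (Set.finite_range _)

theorem finrank_W (u : σ → A) (d : ℕ) : Module.finrank ℚ (W u d) ≤ (d + 1) ^ Fintype.card σ := by
  exact (finrank_range_le_card (R := ℚ) fun e : σ → Fin (d + 1) => ∏ i, u i ^ (e i : ℕ)).trans
    (by simp)

theorem finrank_W_pos [Nontrivial A] (u : σ → A) (d : ℕ) : 0 < Module.finrank ℚ (W u d) := by
  refine Module.finrank_pos_iff.2 ⟨⟨⟨1, Submodule.subset_span ⟨0, by simp⟩⟩, 0, fun h => ?_⟩⟩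
  exact one_ne_zero (congrArg Subtype.val h)

theorem exists_W {u : σ → A} (hu : Algebra.adjoin ℚ (Set.range u) = ⊤) (k : ℕ) (a : A) :
    ∃ w ∈ W u k, a - w ∈ Ideal.span (Set.range u) ^ k := by
  have h : a ∈ Algebra.adjoin ℚ (Set.range u) := hu ▸ trivial
  rw [Algebra.adjoin_range_eq_range_aeval] at h
  obtain ⟨P, rfl⟩ := h
  induction P using MvPolynomial.induction_on' with
  | monomial e c =>
    change ∃ w ∈ W u k, aeval u (monomial e c) - w ∈ _
    rw [aeval_monomial, Finsupp.prod_fintype _ _ (by simp), ← Algebra.smul_def]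
    by_cases he : ∀ i, e i ≤ k
    · exact ⟨_, Submodule.smul_mem _ c (Submodule.subset_span
        ⟨fun i => ⟨e i, Nat.lt_succ_of_le (he i)⟩, rfl⟩), by simp⟩
    · obtain ⟨i, hi⟩ := not_forall.1 he
      refine ⟨0, zero_mem _, ?_⟩
      rw [sub_zero, Algebra.smul_def, ← mul_prod_erase _ _ (mem_univ i)]
      exact Ideal.mul_mem_left _ _ (Ideal.mul_mem_right _ _ (Ideal.pow_le_pow_right
        (not_le.1 hi).le (Ideal.pow_mem_pow (Ideal.subset_span (Set.mem_range_self i)) _)))
  | add P Q hP hQ =>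
    obtain ⟨w, hw, h1⟩ := hP
    obtain ⟨w', hw', h2⟩ := hQ
    refine ⟨w + w', add_mem hw hw', ?_⟩
    rw [map_add, add_sub_add_comm]
    exact add_mem h1 h2

/-- Substitution of the Taylor polynomials for the logarithms. -/
noncomputable def sub (u : σ → A) (k : ℕ) : MvPolynomial σ A →ₐ[A] A := aeval fun i => LT k (u i)

theorem LT_succ_sub (u : σ → A) (k : ℕ) (i : σ) :
    LT (k + 1) (u i) - LT k (u i) ∈ Ideal.span (Set.range u) ^ k := by
  rw [LT, sum_range_succ, ← LT, add_sub_cancel_left, Algebra.smul_def]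
  exact Ideal.mul_mem_left _ _ (Ideal.pow_mem_pow (Ideal.subset_span (Set.mem_range_self i)) _)

theorem sub_succ_sub (u : σ → A) (k : ℕ) (f : MvPolynomial σ A) :
    sub u (k + 1) f - sub u k f ∈ Ideal.span (Set.range u) ^ k := by
  rw [← Ideal.Quotient.eq]
  induction f using MvPolynomial.induction_on with
  | C a => simp [sub]
  | add f g hf hg => simp only [map_add, hf, hg]
  | mul_X f i hf =>
    simp only [map_mul, hf]
    simp only [sub, aeval_X, Ideal.Quotient.eq.2 (LT_succ_sub u k i)]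

theorem sub_tD {u p : σ → A} {d : Derivation ℤ A A} (hd : ∀ i, d (u i) = p i * (1 + u i)) (k : ℕ)
    (f : MvPolynomial σ A) :
    d (sub u (k + 1) f) - sub u k (tD d p f) ∈ Ideal.span (Set.range u) ^ k := by
  rw [← Ideal.Quotient.eq]
  induction f using MvPolynomial.induction_on with
  | C a => simp [sub, tD_C]
  | add f g hf hg => simp only [map_add, hf, hg]
  | mul_X f i hf =>
    have h1 : Ideal.Quotient.mk (Ideal.span (Set.range u) ^ k) (p i * (-u i) ^ k) = 0 :=
      Ideal.Quotient.eq_zero_iff_mem.2 (Ideal.mul_mem_left _ _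
        (Ideal.pow_mem_pow (neg_mem (Ideal.subset_span (Set.mem_range_self i))) _))
    have h2 : ∀ j, sub u j (X i) = LT j (u i) := fun j => aeval_X _ _
    have h3 : sub u k (C (p i)) = p i := aeval_C _ _
    simp only [map_mul, Derivation.leibniz, smul_eq_mul, map_add, hf, tD_X, h2, h3,
      der_LT d k (hd i), map_sub, h1, Ideal.Quotient.eq.2 (LT_succ_sub u k i),
      Ideal.Quotient.eq.2 (sub_succ_sub u k f), sub_zero]

theorem iterate_mem {u p : σ → A} {d : Derivation ℤ A A} (hd : ∀ i, d (u i) = p i * (1 + u i))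
    (k l : ℕ) (f : MvPolynomial σ A) (h : sub u (k + l) f ∈ Ideal.span (Set.range u) ^ (k + l)) :
    sub u k ((tD d p)^[l] f) ∈ Ideal.span (Set.range u) ^ k := by
  induction l generalizing f with
  | zero => exact h
  | succ l ih =>
    refine ih _ ?_
    simpa using sub_mem (der_pow d _ (k + l) (a := sub u (k + l + 1) f) h) (sub_tD hd (k + l) f)

/-- A filtration of a ring by orders of smallness. -/
structure Filt (Ω : Type*) [CommRing Ω] [Algebra ℚ Ω] where
  V : ℕ → Submodule ℚ Ω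
  one_mem : 1 ∈ V 0
  mul_mem : ∀ {m l y z}, y ∈ V m → z ∈ V l → y * z ∈ V (m + l)
  anti : Antitone V
  prime : ∀ {m l y z}, y * z ∈ V (m + l) → y ∈ V m ∨ z ∈ V l

variable {Ω : Type*} [CommRing Ω] [Algebra ℚ Ω] [Algebra A Ω] (F : Filt Ω) {u : σ → A} {x : σ → Ω}

/-- Small algebraic points `u` with logarithms `x = log (1 + u)` and a Liouville inequality. -/
structure Small (u : σ → A) (x : σ → Ω) (κ : ℕ) : Prop where
  gen : Algebra.adjoin ℚ (Set.range u) = ⊤
  hu : ∀ i, algebraMap A Ω (u i) ∈ F.V 1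
  hx : ∀ i k, x i - LT k (algebraMap A Ω (u i)) ∈ F.V k
  lv : ∀ d, ∀ w ∈ W u d, algebraMap A Ω w ∈ F.V (κ * (d + 1)) → w = 0

variable {F} {κ : ℕ}

theorem Small.mem_zero (S : Small F u x κ) (a : A) : algebraMap A Ω a ∈ F.V 0 := by
  have h : a ∈ Algebra.adjoin ℚ (Set.range u) := S.gen ▸ trivial
  induction h using Algebra.adjoin_induction with
  | mem a ha =>
    obtain ⟨i, rfl⟩ := ha
    exact F.anti zero_le_one (S.hu i)
  | algebraMap c =>
    rw [Algebra.algebraMap_eq_smul_one c, map_rat_smul, map_one]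
    exact Submodule.smul_mem _ _ F.one_mem
  | add a b _ _ ha hb => exact map_add (algebraMap A Ω) a b ▸ add_mem ha hb
  | mul a b _ _ ha hb => exact map_mul (algebraMap A Ω) a b ▸ F.mul_mem ha hb

theorem Small.mem_pow (S : Small F u x κ) (k : ℕ) {a : A} (h : a ∈ Ideal.span (Set.range u) ^ k) :
    algebraMap A Ω a ∈ F.V k := by
  induction k generalizing a with
  | zero => exact S.mem_zero a
  | succ k ih =>
    rw [pow_succ] at h
    refine Submodule.mul_induction_on h (fun a ha b hb => ?_) fun a b ha hb => ?_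
    · obtain ⟨c, rfl⟩ := Ideal.mem_span_range_iff_exists_fun.1 hb
      rw [map_mul, map_sum]
      exact F.mul_mem (ih ha) (sum_mem fun i _ =>
        map_mul (algebraMap A Ω) _ _ ▸ F.mul_mem (S.mem_zero _) (S.hu i))
    · exact map_add (algebraMap A Ω) a b ▸ add_mem ha hb

theorem Small.aeval_sub (S : Small F u x κ) (k : ℕ) (f : MvPolynomial σ A) :
    aeval x f - algebraMap A Ω (sub u k f) ∈ F.V k := by
  induction f using MvPolynomial.induction_on with
  | C a => simp [sub]
  | add f g hf hg => simpa only [map_add, add_sub_add_comm] using add_mem hf hg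
  | mul_X f i hf =>
    have h1 : x i ∈ F.V 0 := by simpa [LT] using S.hx i 0
    have h2 := add_mem (F.mul_mem hf h1) (zero_add k ▸ F.mul_mem (S.mem_zero (sub u k f)) (S.hx i k))
    have h3 : sub u k (X i) = LT k (u i) := aeval_X _ _
    rw [map_mul, map_mul, map_mul, h3, map_LT, aeval_X]
    refine (congrArg (· ∈ F.V k) ?_).mp h2
    ring

theorem Small.aeval_mem (S : Small F u x κ) {k : ℕ} {f : MvPolynomial σ A}
    (h : sub u k f ∈ Ideal.span (Set.range u) ^ k) : aeval x f ∈ F.V k := by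
  simpa using add_mem (S.aeval_sub k f) (S.mem_pow k h)

theorem Filt.of_pow {y z : Ω} {w m : ℕ} (hy : y ∉ F.V w) (j : ℕ) (h : y ^ j * z ∈ F.V (j * w + m)) :
    z ∈ F.V m := by
  induction j with
  | zero => simpa using h
  | succ j ih =>
    rw [pow_succ', mul_assoc, show (j + 1) * w + m = w + (j * w + m) by ring] at h
    exact ih ((F.prime h).resolve_left hy)

theorem Small.indep (S : Small F u x κ) {p : σ → A} {D : Derivation ℤ A A}
    (hD : ∀ i, D (u i) = p i * (1 + u i)) {g : MvPolynomial σ A} (hg : ∀ m, aeval x g ∈ F.V m)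
    {w : ℕ} (hw : aeval x (tD D p g) ∉ F.V w) {d N k : ℕ} (hk : k = N + N * w + κ * (d + 1))
    (K j : ℕ) (hj : j + K ≤ N) (e : Fin K → A) (he : ∀ i, e i ∈ W u d)
    (h : sub u k (g ^ j * ∑ i : Fin K, g ^ (i : ℕ) * C (e i)) ∈ Ideal.span (Set.range u) ^ k) :
    e = 0 := by
  induction K generalizing j with
  | zero => exact Subsingleton.elim _ _
  | succ K ih =>
    have h0 : ∀ f m, aeval x (g * f) ∈ F.V m := fun f m =>
      map_mul (aeval x) g f ▸ F.mul_mem (hg m) (S.aeval_mem (k := 0) (by simp))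
    set h' := ∑ i : Fin K, g ^ (i : ℕ) * C (e i.succ) with hh
    have h1 : ∑ i : Fin (K + 1), g ^ (i : ℕ) * C (e i) = C (e 0) + g * h' := by
      simp [Fin.sum_univ_succ, hh, mul_sum, pow_succ', mul_assoc]
    rw [h1] at h
    have h2 : e 0 = 0 := by
      obtain ⟨c, r, hc, h3⟩ : ∃ (c : ℕ) (r : MvPolynomial σ A), 0 < c ∧
          (tD D p)^[j] (g ^ j * (C (e 0) + g * h')) = (c : MvPolynomial σ A) * (tD D p g ^ j *
            (g ^ 0 * (C (e 0) + g * h'))) + g ^ (0 + 1) * r := iterate_pow (tD D p) g _ j 0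
      obtain ⟨m, hm⟩ : ∃ m, k = j * w + κ * (d + 1) + m + j :=
        ⟨N - j + (N - j) * w - 0, by
          obtain ⟨t, rfl⟩ : ∃ t, N = j + t := ⟨N - j, by omega⟩
          simp only [hk, add_tsub_cancel_left, tsub_zero]
          ring⟩
      rw [hm] at h
      have h4 := F.anti (Nat.le_add_right _ m) (S.aeval_mem (iterate_mem hD _ j _ h))
      have h5 : aeval x (tD D p g) ^ j * algebraMap A Ω (e 0) = (c : ℚ)⁻¹ •
          (aeval x ((tD D p)^[j] (g ^ j * (C (e 0) + g * h'))) -
            aeval x (g * (r + (c : MvPolynomial σ A) * (tD D p g ^ j * h')))) := by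
        rw [eq_inv_smul_iff₀ (by positivity), h3, Nat.cast_smul_eq_nsmul, nsmul_eq_mul]
        simp only [map_add, map_mul, map_pow, map_natCast, aeval_C]
        ring
      exact S.lv d _ (he 0) (F.of_pow hw j (h5 ▸ Submodule.smul_mem _ _ (sub_mem h4 (h0 _ _))))
    rw [h2, C_0, zero_add, ← mul_assoc, ← pow_succ] at h
    have h6 := ih (j + 1) (by omega) (fun i => e i.succ) (fun i => he _) h
    funext i
    exact Fin.cases h2 (congrFun h6) i

/-- Negligible relations are stable under derivations. -/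
theorem Small.stable [Nontrivial A] (S : Small F u x κ) {p : σ → A} {D : Derivation ℤ A A}
    (hD : ∀ i, D (u i) = p i * (1 + u i)) {g : MvPolynomial σ A} (hg : ∀ m, aeval x g ∈ F.V m)
    (w : ℕ) : aeval x (tD D p g) ∈ F.V w := by
  by_contra hw
  have key : ∀ N d, N * Module.finrank ℚ (W u d) ≤
      Module.finrank ℚ (W u (N + N * w + κ * (d + 1))) := fun N d => by
    set k := N + N * w + κ * (d + 1) with hk
    set I := Ideal.span (Set.range u) ^ k with hI
    have h1 : Function.Surjective ((Ideal.Quotient.mkₐ ℚ I).toLinearMap ∘ₗ (W u k).subtype) := by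
      intro a
      obtain ⟨a, rfl⟩ := Ideal.Quotient.mk_surjective a
      obtain ⟨b, hb, h⟩ := exists_W S.gen k a
      exact ⟨⟨b, hb⟩, (Ideal.Quotient.eq.2 h).symm⟩
    have := Module.Finite.of_surjective _ h1
    let Ψ : (Fin N → W u d) →ₗ[ℚ] A ⧸ I := ∑ i : Fin N, (Ideal.Quotient.mkₐ ℚ I).toLinearMap ∘ₗ
      LinearMap.mulLeft ℚ (sub u k (g ^ (i : ℕ))) ∘ₗ (W u d).subtype ∘ₗ LinearMap.proj i
    have h2 : Function.Injective Ψ := (injective_iff_map_eq_zero Ψ).2 fun e he => by
      have h3 := S.indep hD hg hw hk N 0 (by omega) (fun i => e i) (fun i => (e i).2) (by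
        rw [← Ideal.Quotient.eq_zero_iff_mem, ← he]
        simp [Ψ, sub]
        rfl)
      exact funext fun i => Subtype.ext (congrFun h3 i)
    have h4 := (LinearMap.finrank_le_finrank_of_injective h2).trans
      (LinearMap.finrank_le_finrank_of_surjective h1)
    simpa [Module.finrank_pi_fintype] using h4
  set c := 1 + w + 2 * κ with hc
  set n := Fintype.card σ with hn
  set N := 2 * c ^ n with hN
  have hc0 : 0 < c ^ n := by positivity
  have h1 : ∀ j, ∃ d, N ≤ d ∧ d ≤ c ^ j * N ∧ N ^ j ≤ Module.finrank ℚ (W u d) := fun j => by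
    induction j with
    | zero => exact ⟨N, le_rfl, by simp, finrank_W_pos u N⟩
    | succ j ih =>
      obtain ⟨d, a1, a2, a3⟩ := ih
      refine ⟨_, by omega, ?_, (pow_succ' N j).trans_le
        ((Nat.mul_le_mul_left N a3).trans (key N d))⟩
      calc N + N * w + κ * (d + 1) ≤ d + d * w + κ * (d + d) := by gcongr; omega
        _ = c * d := by rw [hc]; ring
        _ ≤ c * (c ^ j * N) := by gcongr
        _ = _ := by ring
  obtain ⟨d, a1, a2, a3⟩ := h1 ((2 * N) ^ n)
  generalize hj : (2 * N) ^ n = j at *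
  have h2 : 2 ^ j * (c ^ n) ^ j ≤ j * (c ^ n) ^ j :=
    calc 2 ^ j * (c ^ n) ^ j = N ^ j := (mul_pow _ _ _).symm
      _ ≤ (d + 1) ^ n := a3.trans (finrank_W u d)
      _ ≤ (2 * N * c ^ j) ^ n := by gcongr; nlinarith
      _ = j * (c ^ n) ^ j := by rw [mul_pow, hj, ← pow_mul, ← pow_mul, mul_comm n]
  exact (Nat.lt_two_pow_self (n := j)).not_ge (Nat.le_of_mul_le_mul_right h2 (by positivity))

end Pool.Agent.MP_3e7261_nt

end MrgPart0

-- ======== part 1: formerly Pool.Agent.MP_3e7261_nt.Diff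
section MrgPart1

/-! Differential algebra: the theorems of Kolchin, Ostrowski and Rosenlicht for logarithms. -/

set_option autoImplicit false
set_option linter.unusedSectionVars false

namespace Pool.Agent.MP_3e7261_nt

open Finset

theorem exists_ext {B L : Type*} [CommRing B] [CommRing L] [Algebra B L] [Algebra.FormallyEtale B L]
    (d : Derivation ℤ B L) : ∃ D : Derivation ℤ L L, ∀ b, D (algebraMap B L b) = d b :=
  ⟨LinearMap.compDer (d.liftKaehlerDifferential.liftBaseChange L ∘ₗ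
    (KaehlerDifferential.tensorKaehlerEquivOfFormallyEtale ℤ B L).symm.toLinearMap)
    (KaehlerDifferential.D ℤ L), fun b => by
      simp [KaehlerDifferential.tensorKaehlerEquivOfFormallyEtale_symm_D_algebraMap]⟩

section Res

open Polynomial

variable {k K : Type*} [Field k] [Field K] [Algebra k K] {t : K}

/-- `y` is a rational function of `t` that is regular at `0` with value `c`. -/
def Reg (t y : K) (c : k) : Prop :=
  ∃ p q : k[X], q.eval 0 ≠ 0 ∧ y * aeval t q = aeval t p ∧ p.eval 0 = c * q.eval 0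

theorem Reg.const (c : k) : Reg t (algebraMap k K c) c := ⟨C c, 1, by simp, by simp, by simp⟩

theorem Reg.self : Reg t t (0 : k) := ⟨X, 1, by simp, by simp, by simp⟩

theorem Reg.mul {y z : K} {a b : k} (h : Reg t y a) (h' : Reg t z b) : Reg t (y * z) (a * b) := by
  obtain ⟨p, q, h1, h2, h3⟩ := h
  obtain ⟨p', q', h1', h2', h3'⟩ := h'
  refine ⟨p * p', q * q', by simp [h1, h1'], ?_, ?_⟩
  · rw [map_mul, map_mul, ← h2, ← h2']
    ring
  · rw [eval_mul, eval_mul, h3, h3']
    ring

theorem Reg.add {y z : K} {a b : k} (h : Reg t y a) (h' : Reg t z b) : Reg t (y + z) (a + b) := by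
  obtain ⟨p, q, h1, h2, h3⟩ := h
  obtain ⟨p', q', h1', h2', h3'⟩ := h'
  refine ⟨p * q' + p' * q, q * q', by simp [h1, h1'], ?_, ?_⟩
  · rw [map_add, map_mul, map_mul, map_mul, ← h2, ← h2']
    ring
  · rw [eval_add, eval_mul, eval_mul, eval_mul, h3, h3']
    ring

theorem Reg.sum {ι : Type*} (s : Finset ι) {y : ι → K} {a : ι → k} (h : ∀ i, Reg t (y i) (a i)) :
    Reg t (∑ i ∈ s, y i) (∑ i ∈ s, a i) := by
  classical
  induction s using Finset.induction_on with
  | empty => simpa using Reg.const (t := t) (0 : k)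
  | insert i s hi ih => simpa only [sum_insert hi] using (h i).add ih

theorem Reg.pow (n : ℕ) : Reg t (t ^ (n + 1)) (0 : k) := ⟨X ^ (n + 1), 1, by simp, by simp, by simp⟩

theorem Reg.unique (ht : ∀ p : k[X], aeval t p = 0 → p = 0) {y : K} {a b : k} (h : Reg t y a)
    (h' : Reg t y b) : a = b := by
  obtain ⟨p, q, h1, h2, h3⟩ := h
  obtain ⟨p', q', h1', h2', h3'⟩ := h'
  have h4 := congrArg (eval 0) (ht (p * q' - p' * q) (by
    rw [map_sub, map_mul, map_mul, ← h2, ← h2']
    ring))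
  rw [eval_sub, eval_mul, eval_mul, h3, h3', eval_zero] at h4
  exact mul_right_cancel₀ (mul_ne_zero h1 h1') (by linear_combination h4)

variable {δ : Derivation ℤ K K} (h0 : ∀ c : k, δ (algebraMap k K c) = 0) (h1 : δ t = 1)
include h0 h1

theorem der_aeval (p : k[X]) : δ (aeval t p) = aeval t (derivative p) := by
  induction p using Polynomial.induction_on' with
  | add p q hp hq => simp only [map_add, hp, hq]
  | monomial n a =>
    simp [aeval_monomial, derivative_monomial, Derivation.leibniz_pow, h0, h1, mul_assoc]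

theorem aeval_inj [CharZero k] (p : k[X]) (hp : aeval t p = 0) : p = 0 := by
  induction h : p.natDegree using Nat.strong_induction_on generalizing p with
  | _ n ih =>
    have h2 : p.natDegree = 0 := by
      by_contra h2
      exact h2 (derivative_eq_zero.1 (ih _ (h ▸ natDegree_derivative_lt h2) _
        (by rw [← der_aeval h0 h1, hp, map_zero]) rfl))
    rw [eq_C_of_natDegree_eq_zero h2] at hp ⊢
    simpa using hp

theorem dec_poly [CharZero k] {p : k[X]} (hp : p ≠ 0) : ∃ (a : ℕ) (u : K) (c c' : k),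
    aeval t p = t ^ a * u ∧ u ≠ 0 ∧ Reg t u c ∧ Reg t u⁻¹ c' ∧ Reg t (t * (δ u / u)) (0 : k) := by
  obtain ⟨q, h2, h3⟩ := exists_eq_pow_rootMultiplicity_mul_and_not_dvd p hp 0
  rw [dvd_iff_isRoot] at h3
  have h4 : aeval t q ≠ 0 := fun h => h3 (by simp [aeval_inj h0 h1 q h])
  refine ⟨p.rootMultiplicity 0, aeval t q, q.eval 0, (q.eval 0)⁻¹, ?_, h4, ⟨q, 1, by simp, by simp,
    by simp⟩, ⟨1, q, h3, by simp [h4], by simp [inv_mul_cancel₀ h3]⟩,
    ⟨X * derivative q, q, h3, ?_, by simp⟩⟩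
  · conv_lhs => rw [h2]
    simp
  · rw [der_aeval h0 h1, mul_assoc, div_mul_cancel₀ _ h4, map_mul, aeval_X]

open IntermediateField in
theorem dec [CharZero k] {y : K} (hy : y ∈ k⟮t⟯) (hy0 : y ≠ 0) : ∃ a : ℤ,
    Reg t (t * (δ y / y)) (a : k) ∧ (0 < a → Reg t y (0 : k)) ∧ (a = 0 → ∃ c : k, Reg t y c) ∧
      (a < 0 → Reg t y⁻¹ (0 : k)) := by
  obtain ⟨p, q, rfl⟩ := (mem_adjoin_simple_iff k y).1 hy
  have ht : t ≠ 0 := fun h => by simp [h] at h1
  obtain ⟨a, u, c, c', e, hu, a1, a2, a3⟩ := dec_poly h0 h1 (p := p) fun h => hy0 (by simp [h])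
  obtain ⟨b, v, d, d', e', hv, b1, b2, b3⟩ := dec_poly h0 h1 (p := q) fun h => hy0 (by simp [h])
  rw [e, e']
  refine ⟨a - b, ?_, fun h => ?_, fun h => ⟨c * d', ?_⟩, fun h => ?_⟩
  · have := ((Reg.const ((a : k) - b)).add a3).add ((Reg.const (-1 : k)).mul b3)
    simp only [add_zero, mul_zero] at this
    push_cast
    refine (congrArg (Reg t · _) ?_).mp this
    have h2 : ∀ n : ℕ, δ (t ^ n) = n * t ^ n / t := fun n => by
      rw [δ.leibniz_pow, h1]
      rcases n with _ | n
      · simp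
      · simp [pow_succ, mul_div_assoc, ht]
    simp only [map_sub, map_natCast, map_neg, map_one, Derivation.leibniz_div, Derivation.leibniz,
      h2, smul_eq_mul]
    field_simp
    ring
  · obtain ⟨n, rfl⟩ : ∃ n, a = b + (n + 1) := ⟨a - b - 1, by omega⟩
    have := ((Reg.pow n).mul a1).mul b2
    simp only [zero_mul] at this
    refine (congrArg (Reg t · _) ?_).mp this
    field_simp
    ring
  · obtain rfl : a = b := by omega
    refine (congrArg (Reg t · _) ?_).mp (a1.mul b2)
    field_simp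
  · obtain ⟨n, rfl⟩ : ∃ n, b = a + (n + 1) := ⟨b - a - 1, by omega⟩
    have := ((Reg.pow n).mul b1).mul a2
    simp only [zero_mul] at this
    refine (congrArg (Reg t · _) ?_).mp this
    field_simp
    ring

open IntermediateField in
theorem res_der [CharZero k] {g : K} (hg : g ∈ k⟮t⟯) {c : k} (h : Reg t (t * δ g) c) : c = 0 := by
  have hu := fun y (a b : k) => Reg.unique (t := t) (aeval_inj h0 h1) (y := y) (a := a) (b := b)
  by_cases hg0 : g = 0
  · exact hu _ _ _ h (by simpa [hg0] using Reg.const (t := t) (0 : k))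
  obtain ⟨a, a1, a2, a3, a4⟩ := dec h0 h1 hg hg0
  have e : g * (t * (δ g / g)) = t * δ g := by field_simp
  rcases lt_trichotomy a 0 with ha | ha | ha
  · have := hu _ _ _ a1 (by simpa only [div_eq_mul_inv, mul_assoc] using h.mul (a4 ha))
    rw [mul_zero, Int.cast_eq_zero] at this
    omega
  · obtain ⟨c', hc⟩ := a3 ha
    exact (hu _ _ _ h (e ▸ hc.mul a1)).trans (by simp [ha])
  · exact (hu _ _ _ h (e ▸ (a2 ha).mul a1)).trans (by simp)

end Res

section Trace

open Differential

theorem der_trace {F K : Type*} (E : Type*) [Field F] [Field K] [Algebra F K] [CharZero F]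
    [Field E] [Algebra F E] [IsAlgClosed E] [Algebra.IsAlgebraic F E]
    [FiniteDimensional F K] [Differential F] [Differential K] [DifferentialAlgebra F K]
    {ι : Type*} [Fintype ι] (γ : ι → F) {β : ι → K} (hβ : ∀ j, β j ≠ 0) {f : K}
    (h : f′ = ∑ j, algebraMap F K (γ j) * logDeriv (β j)) :
    (Algebra.trace F K f)′ = ∑ j, γ j * logDeriv (Algebra.norm F (β j)) := by
  have := Algebra.FormallyEtale.of_isSeparable F E
  obtain ⟨D, hD⟩ := exists_ext ((Algebra.linearMap F E).compDer (Differential.deriv (R := F)))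
  let : Differential E := ⟨D⟩
  have : DifferentialAlgebra F E := ⟨hD⟩
  refine (algebraMap F E).injective ?_
  rw [← deriv_algebraMap, trace_eq_sum_embeddings]
  simp only [map_sum, map_mul, ← logDeriv_algebraMap, Algebra.norm_eq_prod_embeddings]
  have h1 : ∀ j, logDeriv (∏ s : K →ₐ[F] E, s (β j)) = ∑ s : K →ₐ[F] E, logDeriv (s (β j)) :=
    fun j => logDeriv_prod _ _ _ fun s _ => (map_ne_zero s).2 (hβ j)
  simp only [h1, Finset.mul_sum]
  rw [sum_comm]
  refine sum_congr rfl fun s _ => ?_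
  rw [← algHom_deriv' s s.injective, h]
  simp [Differential.logDeriv, algHom_deriv' s s.injective]

end Trace

variable {K : Type*} [Field K] [CharZero K]

/-- The constants of a derivation. -/
def consts (δ : Derivation ℤ K K) : IntermediateField ℚ K where
  carrier := {y | δ y = 0}
  mul_mem' ha hb := by simp_all
  add_mem' ha hb := by simp_all
  algebraMap_mem' c := by
    change δ _ = 0
    rw [Algebra.algebraMap_eq_smul_one, map_rat_smul, δ.map_one_eq_zero, smul_zero]
  inv_mem' y hy := by simp_all [Derivation.leibniz_inv]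

open IntermediateField in
theorem exists_der {t : K} (ht : Transcendental ℚ t) :
    ∃ δ : Derivation ℤ K K, δ t = 1 ∧ Algebra.IsAlgebraic (consts δ)⟮t⟯ K := by
  classical
  obtain ⟨s, hs, hb⟩ := exists_isTranscendenceBasis_superset (R := ℚ) (s := {t})
    (algebraicIndependent_unique_type_iff.2 ht)
  have hs' : t ∈ s := hs rfl
  let B := MvPolynomial s ℚ
  let : Algebra B K := (MvPolynomial.aeval (R := ℚ) ((↑) : s → K)).toAlgebra
  have hB : ∀ b : B, algebraMap B K b = MvPolynomial.aeval ((↑) : s → K) b := fun _ => rfl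
  have : FaithfulSMul B K := (faithfulSMul_iff_algebraMap_injective _ _).2 hb.1
  have h1 : Algebra.IsAlgebraic B K := by
    have := hb.isAlgebraic
    exact Algebra.IsAlgebraic.of_ringHom_of_comp_eq
      (hb.1.aevalEquiv : B →+* Algebra.adjoin ℚ (Set.range ((↑) : s → K))) (RingHom.id K)
      hb.1.aevalEquiv.surjective Function.injective_id
      (RingHom.ext fun p => hb.1.algebraMap_aevalEquiv p)
  let := FractionRing.liftAlgebra B K
  have := FractionRing.isScalarTower_liftAlgebra B K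
  have := Algebra.IsAlgebraic.extendScalars (R := B) (S := FractionRing B) (A := K)
    (IsFractionRing.injective _ _)
  have := Algebra.FormallyEtale.of_isSeparable (FractionRing B) K
  have := Algebra.FormallyEtale.comp B (FractionRing B) K
  obtain ⟨D, hD⟩ := exists_ext ((Algebra.linearMap B K).compDer
    ((MvPolynomial.pderiv (R := ℚ) (⟨t, hs'⟩ : s)).restrictScalars ℤ))
  have h2 : ∀ y : s, D y = if y = ⟨t, hs'⟩ then 1 else 0 := fun y => by
    have := hD (MvPolynomial.X y)
    rw [hB, MvPolynomial.aeval_X] at this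
    rw [this]
    change algebraMap B K (MvPolynomial.pderiv _ (MvPolynomial.X y)) = _
    split_ifs with h
    · simp [h]
    · simp [MvPolynomial.pderiv_X_of_ne h]
  refine ⟨D, by simpa using h2 ⟨t, hs'⟩, ⟨fun y => ?_⟩⟩
  refine IsAlgebraic.tower_top_of_subalgebra_le
    (B := ((consts D)⟮t⟯.restrictScalars ℚ).toSubalgebra) (Algebra.adjoin_le ?_)
    (hb.isAlgebraic.isAlgebraic y)
  rintro _ ⟨y, rfl⟩
  by_cases h : y = ⟨t, hs'⟩
  · exact h ▸ mem_adjoin_simple_self _ t
  · exact IntermediateField.algebraMap_mem (consts D)⟮t⟯ ⟨y, (h2 y).trans (if_neg h)⟩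

open IntermediateField Differential in
theorem rosenlicht [Algebra.EssFiniteType ℚ K] {ι : Type*} [Fintype ι] {γ β : ι → K}
    (hγ : LinearIndependent ℚ γ) (hβ : ∀ j, β j ≠ 0) {f : K}
    (h : ∀ δ : Derivation ℤ K K, (∀ j, δ (γ j) = 0) ∧ δ f = ∑ j, γ j * (δ (β j) / β j)) (j₀ : ι) :
    IsAlgebraic ℚ (β j₀) := by
  by_contra ht
  obtain ⟨δ, h1, h2⟩ := exists_der ht
  obtain ⟨h3, h4⟩ := h δ
  set t := β j₀ with ht'
  set k := consts δ with hk
  have h0 : ∀ c : k, δ (algebraMap k K c) = 0 := fun c => c.2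
  have h5 : ∀ y : k⟮t⟯, δ y ∈ k⟮t⟯ := fun y => by
    obtain ⟨p, q, e⟩ := (mem_adjoin_simple_iff k y.1).1 y.2
    have : ∀ p : Polynomial k, Polynomial.aeval t p ∈ k⟮t⟯ := fun p =>
      (mem_adjoin_simple_iff k _).2 ⟨p, 1, by simp⟩
    rw [e, δ.leibniz_div, der_aeval h0 h1, der_aeval h0 h1]
    simp only [smul_eq_mul]
    exact mul_mem (pow_mem (inv_mem (this _)) _)
      (sub_mem (mul_mem (this _) (this _)) (mul_mem (this _) (this _)))
  let : Differential K := ⟨δ⟩
  let : Differential k⟮t⟯ := ⟨Derivation.mk' (AddMonoidHom.toIntLinearMap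
    { toFun := fun y => ⟨δ y, h5 y⟩
      map_zero' := Subtype.ext (by simp)
      map_add' := fun _ _ => Subtype.ext (by simp) }) fun _ _ => Subtype.ext (by simp)⟩
  have : DifferentialAlgebra k⟮t⟯ K := ⟨fun _ => rfl⟩
  have : Algebra.EssFiniteType k⟮t⟯ K := .of_comp ℚ _ _
  have : FiniteDimensional k⟮t⟯ K := Algebra.finite_of_essFiniteType_of_isAlgebraic
  have h6 := congrArg (algebraMap k⟮t⟯ K) (der_trace (F := k⟮t⟯) (AlgebraicClosure k⟮t⟯)
    (fun j => algebraMap k _ ⟨γ j, h3 j⟩) hβ (f := f) h4)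
  simp only [map_sum, map_mul, ← logDeriv_algebraMap, ← deriv_algebraMap] at h6
  have h7 := fun j => dec h0 h1 (Algebra.norm k⟮t⟯ (β j)).2 fun e =>
    hβ j ((Algebra.norm_eq_zero_iff (R := k⟮t⟯)).1 (Subtype.ext e))
  choose a ha _ using h7
  have h8 : ∑ j, (⟨γ j, h3 j⟩ : k) * (a j : k) = 0 :=
    res_der h0 h1 (Algebra.trace k⟮t⟯ K f).2 (by
      have := Reg.sum univ fun j => (Reg.const (t := t) (⟨γ j, h3 j⟩ : k)).mul (ha j)
      refine (congrArg (Reg t · _) ?_).mp this
      refine Eq.trans ?_ (congrArg (t * ·) h6).symm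
      rw [mul_sum]
      exact sum_congr rfl fun j _ => mul_left_comm _ _ _)
  have h9 := Fintype.linearIndependent_iff.1 hγ (fun j => a j) (by
    simpa [mul_comm, Algebra.smul_def] using congrArg (algebraMap k K) h8) j₀
  obtain ⟨n, hn⟩ := Nat.exists_eq_succ_of_ne_zero (Module.finrank_pos (R := k⟮t⟯) (M := K)).ne'
  have e : (Algebra.norm k⟮t⟯ t : K) = t ^ (n + 1) := by
    have := Algebra.norm_algebraMap (S := K) (AdjoinSimple.gen k t)
    rw [AdjoinSimple.algebraMap_gen, hn] at this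
    rw [this]
    rfl
  have h10 := ha j₀
  rw [← ht', e, δ.leibniz_pow, h1] at h10
  have h11 : t * ((n + 1) • t ^ (n + 1 - 1) • (1 : K) / t ^ (n + 1)) = algebraMap k K (n + 1) := by
    have : t ≠ 0 := hβ j₀
    simp only [add_tsub_cancel_right, smul_eq_mul, nsmul_eq_mul, map_add, map_natCast, map_one]
    push_cast
    field_simp
    ring
  have h12 := Reg.unique (aeval_inj h0 h1) (h11 ▸ h10) (Reg.const _)
  have h13 : a j₀ = 0 := by exact_mod_cast h9
  rw [h13] at h12
  exact Nat.cast_add_one_ne_zero n (h12.symm.trans Int.cast_zero)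

end Pool.Agent.MP_3e7261_nt

end MrgPart1

-- ======== part 2: formerly Pool.Agent.MP_3e7261_nt.Bridge
section MrgPart2

/-! Small logarithms that satisfy an algebraic relation come from multiplicatively dependent
points. -/

set_option autoImplicit false
set_option linter.unusedSectionVars false

namespace Pool.Agent.MP_3e7261_nt

open MvPolynomial Finset

variable {σ : Type} [Fintype σ] [DecidableEq σ]

section Ko

variable {K : Type*} [Field K] [CharZero K]

theorem ko {J : Ideal (MvPolynomial σ K)} (h0 : J ≠ ⊥) (h1 : J ≠ ⊤)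
    (ω : Derivation ℤ K K → σ → K) (hJ : ∀ δ, ∀ G ∈ J, tD δ (ω δ) G ∈ J) :
    ∃ (c : σ → K) (f : K), c ≠ 0 ∧ ∀ δ : Derivation ℤ K K,
      (∀ i, δ (c i) = 0) ∧ δ f = ∑ i, c i * ω δ i := by
  let : LinearOrder σ := LinearOrder.lift' (Fintype.equivFin σ) (Fintype.equivFin σ).injective
  let o : MonomialOrder σ := MonomialOrder.degLex
  obtain ⟨G₁, hG₁, hG₁'⟩ := Submodule.exists_mem_ne_zero_of_ne_bot h0
  obtain ⟨_, ⟨G₀, ⟨a1, a2⟩, rfl⟩, hmin⟩ := (wellFounded_lt (α := o.syn)).has_min
    ((fun G => o.toSyn (o.degree G)) '' {G | G ∈ J ∧ G ≠ 0}) ⟨_, G₁, ⟨hG₁, hG₁'⟩, rfl⟩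
  have a3 := o.leadingCoeff_ne_zero_iff.2 a2
  set G := (o.leadingCoeff G₀)⁻¹ • G₀ with hG
  have b1 : G ∈ J := by
    rw [hG, smul_eq_C_mul]
    exact J.mul_mem_left _ a1
  have b2 : o.degree G = o.degree G₀ :=
    o.degree_smul_of_isRegular (IsRegular.of_ne_zero (inv_ne_zero a3))
  have b3 : coeff (o.degree G) G = 1 := by
    rw [b2, hG, coeff_smul, smul_eq_mul]
    exact inv_mul_cancel₀ a3
  simp only [← b2] at hmin
  clear_value G
  have b4 : ∀ δ, tD δ (ω δ) G = 0 := fun δ => by
    by_contra h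
    have c1 := not_lt.1 (hmin _ ⟨_, ⟨hJ δ G b1, h⟩, rfl⟩)
    apply o.coeff_degree_ne_zero_iff.2 h
    have c2 : ∀ i, coeff (o.degree (tD δ (ω δ) G) + Finsupp.single i 1) G = 0 := fun i =>
      o.coeff_eq_zero_of_lt (c1.trans_lt (o.toSyn_strictMono
        (lt_add_of_pos_right _ (by simp [pos_iff_ne_zero]))))
    simp only [coeff_tD, c2, zero_mul, mul_zero, sum_const_zero, add_zero]
    rcases c1.eq_or_lt with e | e
    · rw [← o.toSyn.injective e, b3, δ.map_one_eq_zero]
    · rw [o.coeff_eq_zero_of_lt e, map_zero]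
  obtain ⟨i₀, hi₀⟩ : ∃ i, o.degree G i ≠ 0 := by
    by_contra! h
    have h2 : o.degree G = 0 := Finsupp.ext h
    refine h1 ((Ideal.eq_top_iff_one J).2 ?_)
    rwa [o.eq_C_of_degree_eq_zero h2, MonomialOrder.leadingCoeff, b3, C_1] at b1
  set m := o.degree G - Finsupp.single i₀ 1 with hm
  have b5 : m + Finsupp.single i₀ 1 = o.degree G :=
    tsub_add_cancel_of_le (Finsupp.single_le_iff.2 (Nat.one_le_iff_ne_zero.2 hi₀))
  refine ⟨fun i => coeff (m + Finsupp.single i 1) G * (m i + 1), -coeff m G, fun h => ?_,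
    fun δ => ⟨fun i => ?_, ?_⟩⟩
  · have := congrFun h i₀
    simp only [b5, b3, one_mul, Pi.zero_apply] at this
    exact Nat.cast_add_one_ne_zero _ this
  · have c2 : ∀ j, coeff (m + Finsupp.single i 1 + Finsupp.single j 1) G = 0 := fun j =>
      coeff_eq_zero_of_totalDegree_lt (by
        rw [← degree_degLexDegree, ← b5]
        change _ < Finsupp.degree _
        simp)
    have c3 := coeff_tD δ (ω δ) G (m + Finsupp.single i 1)
    simp only [b4, c2, zero_mul, mul_zero, sum_const_zero, add_zero, coeff_zero] at c3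
    simp [← c3]
  · have c3 := coeff_tD δ (ω δ) G m
    rw [b4, coeff_zero] at c3
    rw [map_neg, neg_eq_iff_add_eq_zero, c3]
    simp only [mul_comm]

theorem der_prod (δ : Derivation ℤ K K) {α : σ → K} (hα : ∀ i, α i ≠ 0) (m : σ → ℤ) :
    δ (∏ i, α i ^ m i) / ∏ i, α i ^ m i = ∑ i, m i * (δ (α i) / α i) := by
  let : Differential K := ⟨δ⟩
  refine (Differential.logDeriv_prod _ _ _ fun i _ => zpow_ne_zero _ (hα i)).trans
    (sum_congr rfl fun i _ => ?_)
  change δ _ / _ = _
  have := hα i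
  rw [δ.leibniz_zpow, zpow_sub_one₀ this, smul_eq_mul, zsmul_eq_mul]
  have := zpow_ne_zero (m i) this
  field_simp

theorem mult [Algebra.EssFiniteType ℚ K] {α : σ → K} (hα : ∀ i, α i ≠ 0) {c : σ → K} (hc : c ≠ 0)
    {f : K} (h : ∀ δ : Derivation ℤ K K, (∀ i, δ (c i) = 0) ∧ δ f = ∑ i, c i * (δ (α i) / α i)) :
    ∃ m : σ → ℤ, m ≠ 0 ∧ IsAlgebraic ℚ (∏ i, α i ^ m i) := by
  let T := Submodule.span ℚ (Set.range c)
  have : Module.Finite ℚ T := Module.Finite.span_of_finite ℚ (Set.finite_range _)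
  let b := Module.finBasis ℚ T
  let c' : σ → T := fun i => ⟨c i, Submodule.subset_span ⟨i, rfl⟩⟩
  obtain ⟨N, hN⟩ := IsLocalization.exist_integer_multiples_of_finite (nonZeroDivisors ℤ)
    fun e : σ × Fin (Module.finrank ℚ T) => b.repr (c' e.1) e.2
  choose n hn using hN
  have hN0 : ((N : ℤ) : K) ≠ 0 := Int.cast_ne_zero.2 (nonZeroDivisors.ne_zero N.2)
  have h1 : ∀ i, (N : ℤ) * c i = ∑ j, n (i, j) * (b j : K) := fun i => by
    have := congrArg (fun y : T => ((N : ℤ) : K) * y) (b.sum_repr (c' i))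
    simp only [Submodule.coe_sum, Submodule.coe_smul, Finset.mul_sum] at this
    refine this.symm.trans (sum_congr rfl fun j _ => ?_)
    have h2 : ((n (i, j) : ℚ) : K) = _ := congrArg (fun y : ℚ => (y : K)) (hn (i, j))
    simp only [zsmul_eq_mul, Rat.cast_mul, Rat.cast_intCast] at h2
    rw [h2, Rat.smul_def, mul_assoc]
  obtain ⟨i₀, hi₀⟩ := Function.ne_iff.1 hc
  obtain ⟨j₀, hj₀⟩ : ∃ j, n (i₀, j) ≠ 0 := by
    by_contra! h2
    exact mul_ne_zero hN0 hi₀ (by simp [h1, h2])
  refine ⟨fun i => n (i, j₀), Function.ne_iff.2 ⟨i₀, hj₀⟩, rosenlicht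
    (b.linearIndependent.map' T.subtype T.ker_subtype) (β := fun j => ∏ i, α i ^ n (i, j))
    (fun j => prod_ne_zero_iff.2 fun i _ => zpow_ne_zero _ (hα i)) (f := (N : ℤ) * f)
    (fun δ => ⟨fun j => ?_, ?_⟩) j₀⟩
  · have : T ≤ (consts δ).toSubalgebra.toSubmodule :=
      Submodule.span_le.2 (Set.range_subset_iff.2 (h δ).1)
    exact this (b j).2
  · simp only [der_prod δ hα, δ.leibniz, δ.map_intCast, (h δ).2, smul_eq_mul, Finset.mul_sum,
      ← mul_assoc, h1, Finset.sum_mul, mul_zero, add_zero]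
    rw [sum_comm]
    simp only [Function.comp_apply, Submodule.coe_subtype, mul_comm]

end Ko

section Bridge

variable {A K Ω : Type*} [CommRing A] [Algebra ℚ A] [Field K] [CharZero K] [Algebra A K]
  [IsFractionRing A K] [Field Ω] [CharZero Ω] [Algebra A Ω] [Algebra K Ω] [IsScalarTower A K Ω]
  {F : Filt Ω} {u : σ → A} {x : σ → Ω} {κ : ℕ}

theorem Small.not_mem (S : Small F u x κ) {b : A} (hb : b ≠ 0) :
    ∃ m, algebraMap A Ω b ∉ F.V m := by
  have h : b ∈ Algebra.adjoin ℚ (Set.range u) := S.gen ▸ trivial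
  rw [Algebra.adjoin_range_eq_range_aeval] at h
  obtain ⟨P, rfl⟩ := h
  refine ⟨_, fun h => hb (S.lv P.totalDegree _ ?_ h)⟩
  change aeval u P ∈ _
  rw [aeval_def, eval₂_eq']
  exact sum_mem fun m hm => Algebra.smul_def (coeff m P) (_ : A) ▸ Submodule.smul_mem _ _
    (Submodule.subset_span ⟨fun i => ⟨m i, Nat.lt_succ_of_le
      ((monomial_le_degreeOf i hm).trans (degreeOf_le_totalDegree P i))⟩, rfl⟩)

theorem Small.mul_frac (S : Small F u x κ) (a : K) {y : Ω} (hy : ∀ m, y ∈ F.V m) (m : ℕ) :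
    algebraMap K Ω a * y ∈ F.V m := by
  have := (IsFractionRing.injective A K).isDomain
  obtain ⟨p, q, hq, rfl⟩ := IsFractionRing.div_surjective (A := A) a
  obtain ⟨l, hl⟩ := S.not_mem (nonZeroDivisors.ne_zero hq)
  refine (F.prime (m := l) ?_).resolve_left hl
  have h1 : algebraMap A Ω q ≠ 0 := fun h => hl (h ▸ zero_mem _)
  rw [map_div₀, ← IsScalarTower.algebraMap_apply, ← IsScalarTower.algebraMap_apply, ← mul_assoc,
    mul_div_cancel₀ _ h1]
  exact zero_add (l + m) ▸ F.mul_mem (S.mem_zero p) (hy _)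

theorem exists_clear (G : MvPolynomial σ K) : ∃ (b : A) (g : MvPolynomial σ A), b ≠ 0 ∧
    map (algebraMap A K) g = C (algebraMap A K b) * G := by
  have := (IsFractionRing.injective A K).isDomain
  induction G using MvPolynomial.induction_on with
  | C a =>
    obtain ⟨p, q, hq, rfl⟩ := IsFractionRing.div_surjective (A := A) a
    refine ⟨q, C p, nonZeroDivisors.ne_zero hq, ?_⟩
    rw [map_C, ← C_mul, mul_div_cancel₀ _ (IsFractionRing.to_map_ne_zero_of_mem_nonZeroDivisors hq)]
  | add G G' h h' =>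
    obtain ⟨b, g, hb, e⟩ := h
    obtain ⟨b', g', hb', e'⟩ := h'
    refine ⟨b * b', C b' * g + C b * g', mul_ne_zero hb hb', ?_⟩
    simp only [map_add, map_mul, map_C, e, e']
    ring
  | mul_X G i h =>
    obtain ⟨b, g, hb, e⟩ := h
    exact ⟨b, g * X i, hb, by rw [map_mul, map_X, e, mul_assoc]⟩

theorem exists_restrict (hu : Algebra.adjoin ℚ (Set.range u) = ⊤) (δ : Derivation ℤ K K) {q : K}
    (h : ∀ i, q * δ (algebraMap A K (u i)) ∈ (algebraMap A K).range) :
    ∃ D : Derivation ℤ A A, ∀ a, algebraMap A K (D a) = q * δ (algebraMap A K a) := by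
  have h1 : ∀ a, q * δ (algebraMap A K a) ∈ (algebraMap A K).range := fun a => by
    have h2 : a ∈ Algebra.adjoin ℚ (Set.range u) := hu ▸ trivial
    induction h2 using Algebra.adjoin_induction with
    | mem a ha =>
      obtain ⟨i, rfl⟩ := ha
      exact h i
    | algebraMap c =>
      rw [Algebra.algebraMap_eq_smul_one c, map_rat_smul, map_rat_smul, map_one,
        δ.map_one_eq_zero, smul_zero, mul_zero]
      exact zero_mem _
    | add a b _ _ ha hb =>
      rw [map_add, map_add, mul_add]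
      exact add_mem ha hb
    | mul a b _ _ ha hb =>
      rw [map_mul, δ.leibniz, smul_eq_mul, smul_eq_mul, mul_add, mul_left_comm, mul_left_comm q]
      exact add_mem (mul_mem ⟨a, rfl⟩ hb) (mul_mem ⟨b, rfl⟩ ha)
  choose D hD using h1
  have hi := IsFractionRing.injective A K
  refine ⟨Derivation.mk' (AddMonoidHom.toIntLinearMap
    { toFun := D
      map_zero' := hi (by simp [hD])
      map_add' := fun a b => hi (by simp [hD, mul_add]) }) fun a b => hi ?_, hD⟩
  simp only [AddMonoidHom.coe_toIntLinearMap, AddMonoidHom.coe_mk, ZeroHom.coe_mk, hD, map_mul,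
    map_add, Derivation.leibniz, smul_eq_mul]
  ring

theorem Small.bridge_aux (K : Type*) [Field K] [CharZero K] [Algebra A K] [IsFractionRing A K]
    [Algebra K Ω] [IsScalarTower A K Ω] (S : Small F u x κ) (hu : ∀ i, 1 + u i ≠ 0)
    {P : MvPolynomial σ ℚ} (hP : P ≠ 0) (hx : aeval x P = 0) :
    ∃ m : σ → ℤ, m ≠ 0 ∧ IsAlgebraic ℚ (∏ i, (1 + algebraMap A Ω (u i)) ^ m i) := by
  classical
  have hi := IsFractionRing.injective A K
  have := hi.isDomain
  have : Algebra.FiniteType ℚ A := ⟨⟨univ.image u, by simpa using S.gen⟩⟩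
  have : Algebra.EssFiniteType A K := .of_isLocalization K (nonZeroDivisors A)
  have : Algebra.EssFiniteType ℚ K := .comp ℚ A K
  have h1 : ∀ (f : MvPolynomial σ K) (y : Ω), (∀ m, y ∈ F.V m) → ∀ m, aeval x f * y ∈ F.V m := by
    intro f
    induction f using MvPolynomial.induction_on with
    | C a => exact fun y hy => aeval_C x a ▸ S.mul_frac a hy
    | add f g hf hg =>
      intro y hy m
      rw [map_add, add_mul]
      exact add_mem (hf y hy m) (hg y hy m)
    | mul_X f i hf =>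
      intro y hy
      rw [map_mul, aeval_X, mul_assoc]
      exact hf _ fun m => zero_add m ▸ F.mul_mem (by simpa [LT] using S.hx i 0) (hy m)
  let J : Ideal (MvPolynomial σ K) :=
    { carrier := {G | ∀ m, aeval x G ∈ F.V m}
      add_mem' := fun ha hb m => by simpa using add_mem (ha m) (hb m)
      zero_mem' := fun m => by simp
      smul_mem' := fun f G hG m => by simpa using h1 f _ hG m }
  set α : σ → K := fun i => 1 + algebraMap A K (u i) with hα
  have h2 : ∀ i, α i ≠ 0 := fun i h => hu i (hi (by simpa using h))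
  have h0 : J ≠ ⊥ := fun h => by
    have h4 : map (algebraMap ℚ K) P ∈ J := fun m => by
      rw [aeval_map_algebraMap, hx]
      exact zero_mem _
    rw [h, Ideal.mem_bot] at h4
    exact hP (map_injective _ (algebraMap ℚ K).injective (h4.trans (map_zero _).symm))
  have h0' : J ≠ ⊤ := fun h => by
    obtain ⟨m, hm⟩ := S.not_mem (b := 1) one_ne_zero
    have h4 : (1 : MvPolynomial σ K) ∈ J := h ▸ trivial
    exact hm (by simpa using h4 m)
  suffices h : ∀ δ : Derivation ℤ K K, ∀ G ∈ J, tD δ (fun i => δ (α i) / α i) G ∈ J by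
    obtain ⟨c, f, hc, h3⟩ := ko h0 h0' _ h
    obtain ⟨m, hm, h4⟩ := mult h2 hc h3
    refine ⟨m, hm, ?_⟩
    simpa [hα, ← IsScalarTower.algebraMap_apply] using h4.algebraMap (A := Ω)
  intro δ G hG
  obtain ⟨q, hq⟩ := IsLocalization.exist_integer_multiples_of_finite (nonZeroDivisors A)
    fun i => δ (α i) / α i
  choose p hp using hq
  simp only [Algebra.smul_def] at hp
  have h4 : ∀ i, algebraMap A K q * δ (algebraMap A K (u i)) =
      algebraMap A K (p i * (1 + u i)) := fun i => by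
    rw [map_mul, map_add, map_one, hp, mul_assoc, div_mul_cancel₀ _ (h2 i)]
    simp [hα]
  obtain ⟨D, hD⟩ := exists_restrict S.gen δ fun i => ⟨_, (h4 i).symm⟩
  obtain ⟨b, g, hb, e⟩ := exists_clear (A := A) G
  have h5 : map (algebraMap A K) (tD D p g) =
      C (algebraMap A K q) * tD δ (fun i => δ (α i) / α i) (map (algebraMap A K) g) := by
    ext m
    simp only [coeff_map, coeff_C_mul, coeff_tD, map_add, map_sum, map_mul, hD, hp, mul_add,
      Finset.mul_sum, mul_assoc, map_natCast, map_one]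
  have h6 : map (algebraMap A K) (tD D p g) ∈ J := fun m => by
    rw [aeval_map_algebraMap]
    refine S.stable (fun i => hi ((hD _).trans (h4 i))) (fun m => ?_) m
    rw [← aeval_map_algebraMap K, e]
    exact J.mul_mem_left _ hG m
  rw [h5, e, Derivation.leibniz, smul_eq_mul, smul_eq_mul, mul_add] at h6
  have h7 := J.mul_mem_left (C (algebraMap A K (q * b))⁻¹)
    ((Ideal.add_mem_iff_left J (J.mul_mem_left _ (J.mul_mem_right _ hG))).1 h6)
  rwa [← mul_assoc (C _), ← mul_assoc, ← C_mul, ← C_mul, mul_assoc _⁻¹, ← map_mul, inv_mul_cancel₀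
    ((map_ne_zero_iff _ hi).2 (mul_ne_zero (nonZeroDivisors.ne_zero q.2) hb)), C_1, one_mul] at h7

/-- An algebraic relation between small logarithms forces a multiplicative relation. -/
theorem Small.bridge [FaithfulSMul A Ω] (S : Small F u x κ) (hu : ∀ i, 1 + u i ≠ 0)
    {P : MvPolynomial σ ℚ} (hP : P ≠ 0) (hx : aeval x P = 0) :
    ∃ m : σ → ℤ, m ≠ 0 ∧ IsAlgebraic ℚ (∏ i, (1 + algebraMap A Ω (u i)) ^ m i) := by
  have := (FaithfulSMul.algebraMap_injective A Ω).isDomain
  let := FractionRing.liftAlgebra A Ω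
  have := FractionRing.isScalarTower_liftAlgebra A Ω
  have : CharZero (FractionRing A) := algebraRat.charZero _
  exact S.bridge_aux (FractionRing A) hu hP hx

end Bridge

end Pool.Agent.MP_3e7261_nt

end MrgPart2

-- ======== part 3: formerly Pool.Agent.MP_3e7261_nt.Ultra
section MrgPart3

/-! The Liouville inequality and the passage to an ultraproduct. -/

set_option autoImplicit false
set_option linter.unusedSectionVars false

namespace Pool.Agent.MP_3e7261_nt

open Finset Height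

variable {σ : Type} [Fintype σ] [DecidableEq σ]

open AdmissibleAbsValues Multiset in
theorem height_le {K : Type*} [Field K] [AdmissibleAbsValues K] {z : K} {C : ℝ} (x : σ → K)
    (h1 : ∀ v : AbsoluteValue K ℝ, max (v z) 1 ≤ C * ∏ i, max (v (x i)) 1)
    (h2 : ∀ v : AbsoluteValue K ℝ, IsNonarchimedean v → max (v z) 1 ≤ ∏ i, max (v (x i)) 1) :
    mulHeight₁ z ≤ C ^ totalWeight K * ∏ i, mulHeight₁ (x i) := by
  have hC : 0 ≤ C := by
    classical
    have := h1 AbsoluteValue.trivial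
    exact nonneg_of_mul_nonneg_left (zero_le_one.trans ((le_max_right _ _).trans this))
      (by positivity)
  simp only [mulHeight₁_eq, totalWeight]
  rw [prod_mul_distrib, ← prod_replicate, ← Multiset.map_const, ← finprod_prod_comm _ _ (by fun_prop),
    ← prod_map_prod, ← mul_assoc, ← prod_map_mul]
  simp only [Function.const_apply]
  gcongr
  · exact finprod_nonneg fun _ ↦ by positivity
  · exact prod_map_nonneg fun _ h ↦ by positivity
  · exact prod_map_le_prod_map₀ _ _ (fun _ _ ↦ by positivity) fun _ _ ↦ h1 _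
  · exact finprod_le_finprod (by fun_prop) (fun _ ↦ by grind) (by fun_prop) <|
      fun v ↦ h2 _ (isNonarchimedean _ v.prop)

open NumberField in
theorem norm_le_height {K : Type*} [Field K] [NumberField K] (φ : K →+* ℂ) (z : K) :
    ‖φ z‖ ≤ mulHeight₁ z := by
  rw [NumberField.mulHeight₁_eq, ← InfinitePlace.apply φ z]
  refine le_trans ?_ (le_mul_of_one_le_right (by positivity) (one_le_finprod fun _ => le_max_right _ _))
  classical
  rw [← mul_prod_erase _ _ (mem_univ (InfinitePlace.mk φ))]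
  refine le_trans ?_ (le_mul_of_one_le_right (by positivity)
    (one_le_prod fun v _ => one_le_pow₀ (le_max_right _ _)))
  exact (le_max_left _ _).trans (le_self_pow₀ (le_max_right _ _) (InfinitePlace.mult_ne_zero))

theorem liouville (d : ℕ) (n : (σ → Fin (d + 1)) → ℤ) : ∃ C : ℝ, 1 ≤ C ∧
    ∀ (K : Type) [Field K] [NumberField K] (φ : K →+* ℂ) (a : σ → K) (H : ℝ),
      (∀ i, mulHeight₁ (a i) ≤ H) → ∀ z, z = ∑ e, n e * ∏ i, (φ (a i) - 1) ^ (e i : ℕ) → z ≠ 0 →
        1 ≤ ‖z‖ * (C ^ Module.finrank ℚ K * H ^ (d * Fintype.card σ)) := by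
  refine ⟨(1 + ∑ e, |(n e : ℝ)|) * 2 ^ (d * Fintype.card σ), one_le_mul_of_one_le_of_one_le
    (le_add_of_nonneg_right (by positivity)) (one_le_pow₀ one_le_two), fun K _ _ φ a H hH z hz h0 => ?_⟩
  set y : K := ∑ e, n e * ∏ i, (a i - 1) ^ (e i : ℕ) with hy
  obtain rfl : z = φ y := by simp [hz, hy]
  have h1 : ∀ (v : AbsoluteValue K ℝ) (c : ℝ), 1 ≤ c → (∀ i, v (a i - 1) ≤ c * max (v (a i)) 1) →
      ∀ e : σ → Fin (d + 1), v (∏ i, (a i - 1) ^ (e i : ℕ)) ≤
        c ^ (d * Fintype.card σ) * ∏ i, max (v (a i ^ d)) 1 := fun v c hc h e => by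
    rw [map_prod, pow_mul, ← card_univ, ← prod_const, ← prod_mul_distrib]
    refine prod_le_prod (fun _ _ => v.nonneg _) fun i _ => ?_
    have h2 : max (v (a i ^ d)) 1 = max (v (a i)) 1 ^ d := by
      rw [map_pow]
      rcases le_total (v (a i)) 1 with h3 | h3
      · rw [max_eq_right h3, max_eq_right (pow_le_one₀ (v.nonneg _) h3), one_pow]
      · rw [max_eq_left h3, max_eq_left (one_le_pow₀ h3)]
    rw [map_pow, h2, ← mul_pow]
    exact (pow_le_pow_left₀ (v.nonneg _) (h i) _).trans (pow_le_pow_right₀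
      (one_le_mul_of_one_le_of_one_le hc (le_max_right _ _)) (Nat.lt_succ_iff.1 (e i).2))
  have h2 : ∀ v : AbsoluteValue K ℝ, 1 ≤ ∏ i, max (v (a i ^ d)) 1 := fun v =>
    one_le_prod fun _ _ => le_max_right _ _
  have h3 := height_le (z := y) (C := (1 + ∑ e, |(n e : ℝ)|) * 2 ^ (d * Fintype.card σ))
    (fun i => a i ^ d) (fun v => ?_) fun v hv => ?_
  · have h4 := norm_le_height φ y⁻¹
    rw [mulHeight₁_inv, map_inv₀, norm_inv, inv_le_iff_one_le_mul₀' (norm_pos_iff.2 h0)] at h4
    refine h4.trans ?_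
    gcongr
    refine h3.trans ?_
    rw [NumberField.totalWeight_eq_finrank, pow_mul H, ← card_univ (α := σ), ← prod_const]
    simp only [mulHeight₁_pow]
    gcongr with i
    exact hH i
  · have h4 := h1 v 2 one_le_two fun i => by
      have := v.sub_le_add (a i) 1
      have := le_max_left (v (a i)) 1
      have := le_max_right (v (a i)) 1
      simp only [map_one] at *
      linarith
    have h5 := one_le_mul_of_one_le_of_one_le (one_le_pow₀ (n := d * Fintype.card σ) one_le_two) (h2 v)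
    rw [mul_assoc, add_mul, one_mul, sum_mul]
    refine max_le (((v.sum_le _ _).trans (sum_le_sum fun e _ => ?_)).trans
      (le_add_of_nonneg_left (zero_le_one.trans h5))) (h5.trans (le_add_of_nonneg_right (by positivity)))
    rw [map_mul]
    refine mul_le_mul ?_ (h4 e) (v.nonneg _) (abs_nonneg _)
    rw [← v.apply_natAbs_eq]
    exact (v.apply_nat_le_self _).trans (by simp)
  · refine max_le ?_ (h2 v)
    have h4 := h1 v 1 le_rfl fun i => by
      simpa [sub_eq_add_neg] using hv (a i) (-1)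
    refine hv.apply_sum_univ_le.trans (ciSup_le fun e => ?_)
    rw [map_mul]
    simpa using mul_le_mul hv.apply_intCast_le_one (h4 e) (v.nonneg _) zero_le_one

/-- The numbers `α i` lie in a number field of degree `D` and have relative height at most `H`. -/
def Alg (D : ℕ) (H : ℝ) (α : σ → ℂ) : Prop :=
  ∃ (K : Type) (_ : Field K) (_ : NumberField K) (φ : K →+* ℂ) (a : σ → K),
    Module.finrank ℚ K = D ∧ (∀ i, mulHeight₁ (a i) ≤ H) ∧ ∀ i, α i = φ (a i)

open Filter Asymptotics Topology Complex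

/-- A sequence of families of small logarithms of algebraic numbers. -/
structure Data (𝒰 : Ultrafilter ℕ) (l : σ → ℕ → ℂ) (δ : ℕ → ℝ) (k : ℕ) (D : ℕ → ℕ) (H : ℕ → ℝ) :
    Prop where
  pos : ∀ s, 0 < δ s
  le_one : ∀ s, δ s ≤ 1
  norm : ∀ i s, ‖l i s‖ ≤ δ s
  alg : ∀ s, Alg (D s) (H s) fun i => exp (l i s)
  ht : ∀ s, 0 ≤ H s ∧ H s * δ s ^ k ≤ 1
  deg : ∀ C : ℝ, Tendsto (fun s => C ^ D s * δ s) 𝒰 (𝓝 0)

variable {Ω : Type} [Field Ω] [CharZero Ω] {𝒰 : Ultrafilter ℕ} {π : (ℕ → ℂ) →+* Ω}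
  {l : σ → ℕ → ℂ} {δ : ℕ → ℝ} {k : ℕ} {D : ℕ → ℕ} {H : ℕ → ℝ}

/-- The filtration of the ultraproduct by powers of `δ`. -/
def Data.filt (h : Data 𝒰 l δ k D H) (hπ : ∀ f g, π f = π g ↔ f =ᶠ[𝒰] g)
    (hs : Function.Surjective π) : Filt Ω where
  V m :=
    { carrier := {y | ∃ f, π f = y ∧ f =O[𝒰] fun s => δ s ^ m}
      add_mem' := by
        rintro _ _ ⟨f, rfl, hf⟩ ⟨g, rfl, hg⟩
        exact ⟨f + g, map_add _ _ _, hf.add hg⟩
      zero_mem' := ⟨0, map_zero _, isBigO_zero _ _⟩
      smul_mem' := by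
        rintro c _ ⟨f, rfl, hf⟩
        exact ⟨c • f, map_rat_smul _ _ _, hf.const_smul_left c⟩ }
  one_mem := ⟨1, map_one _, IsBigO.of_bound' (Eventually.of_forall fun s => by simp)⟩
  mul_mem := by
    rintro m n _ _ ⟨f, rfl, hf⟩ ⟨g, rfl, hg⟩
    exact ⟨f * g, map_mul _ _ _, by simp only [pow_add]; exact hf.mul hg⟩
  anti := by
    rintro m n hmn _ ⟨f, rfl, hf⟩
    refine ⟨f, rfl, hf.trans (IsBigO.of_bound' (Eventually.of_forall fun s => ?_))⟩
    have := (h.pos s).le
    rw [Real.norm_of_nonneg (by positivity), Real.norm_of_nonneg (by positivity)]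
    exact pow_le_pow_of_le_one this (h.le_one s) hmn
  prime := by
    rintro m n y z ⟨p, e, hp⟩
    obtain ⟨f, rfl⟩ := hs y
    obtain ⟨g, rfl⟩ := hs z
    rw [← map_mul, hπ] at e
    obtain ⟨C, hC⟩ := (hp.congr' e EventuallyEq.rfl).bound
    refine (𝒰.em fun s => ‖f s‖ ≤ ‖δ s ^ m‖).imp (fun h1 => ⟨f, rfl, IsBigO.of_bound' h1⟩)
      fun h1 => ⟨g, rfl, IsBigO.of_bound C ?_⟩
    filter_upwards [h1, hC] with s h1 h2
    have h3 : 0 < ‖δ s ^ m‖ := norm_pos_iff.2 (pow_pos (h.pos s) _).ne'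
    rw [Pi.mul_apply, norm_mul, pow_add, norm_mul, mul_left_comm] at h2
    exact le_of_mul_le_mul_left ((mul_le_mul_of_nonneg_right (not_le.1 h1).le
      (norm_nonneg _)).trans h2) h3

theorem Data.tendsto (h : Data 𝒰 l δ k D H) (i : σ) : Tendsto (l i) 𝒰 (𝓝 0) :=
  squeeze_zero_norm (h.norm i) (by simpa using h.deg 1)

theorem log_exp_of_tendsto {f : ℕ → ℂ} (h : Tendsto f 𝒰 (𝓝 0)) :
    ∀ᶠ s in 𝒰, log (exp (f s)) = f s := by
  filter_upwards [h.eventually (Metric.ball_mem_nhds 0 Real.pi_pos)] with s hs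
  have := abs_lt.1 ((abs_im_le_norm (f s)).trans_lt (by simpa using hs))
  exact log_exp this.1 this.2.le

theorem Data.exp_isBigO (h : Data 𝒰 l δ k D H) (i : σ) :
    (fun s => exp (l i s) - 1) =O[𝒰] δ :=
  IsBigO.of_bound 2 (Eventually.of_forall fun s => (norm_exp_sub_one_le
    ((h.norm i s).trans (h.le_one s))).trans (by
      gcongr
      exact (h.norm i s).trans (le_abs_self _)))

theorem Data.taylor (h : Data 𝒰 l δ k D H) (i : σ) (n : ℕ) :
    (l i - LT n fun s => exp (l i s) - 1) =O[𝒰] fun s => δ s ^ n := by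
  rcases n with _ | n
  · exact IsBigO.of_bound' (Eventually.of_forall fun s => by
      simpa [LT] using (h.norm i s).trans (h.le_one s))
  have h1 : Tendsto (fun s => exp (l i s) - 1) 𝒰 (𝓝 0) :=
    (h.exp_isBigO i).trans_tendsto (by simpa using h.deg 1)
  refine (((log_sub_logTaylor_isBigO n).comp_tendsto h1).congr' ?_ EventuallyEq.rfl).trans
    ((h.exp_isBigO i).pow (n + 1))
  filter_upwards [log_exp_of_tendsto (h.tendsto i)] with s hs
  simp [LT, logTaylor, hs, Rat.smul_def, div_mul_eq_mul_div]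

theorem Data.liou (h : Data 𝒰 l δ k D H) (d : ℕ) (n : (σ → Fin (d + 1)) → ℤ) {f : ℕ → ℂ}
    (hf : ∀ s, f s = ∑ e, n e * ∏ i, (exp (l i s) - 1) ^ (e i : ℕ))
    (h1 : f =O[𝒰] fun s => δ s ^ ((k * Fintype.card σ + 1) * (d + 1))) : f =ᶠ[𝒰] 0 := by
  obtain ⟨C, hC, h2⟩ := liouville d n
  obtain ⟨C', hC', h3⟩ := h1.exists_pos
  have h4 := (h.deg C).const_mul C'
  rw [mul_zero] at h4
  filter_upwards [h3.bound, h4.eventually (gt_mem_nhds one_pos)] with s h3 h4
  by_contra h5
  obtain ⟨K, _, _, φ, a, hD, hH, e⟩ := h.alg s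
  have h6 := h2 K φ a _ hH (f s) (by simp only [hf, e]) h5
  have h7 := (h.pos s).le
  obtain ⟨h8, h9⟩ := h.ht s
  rw [Real.norm_of_nonneg (by positivity)] at h3
  refine h4.not_ge (h6.trans ?_)
  calc _ ≤ C' * δ s ^ ((k * Fintype.card σ + 1) * (d + 1)) *
        (C ^ D s * H s ^ (d * Fintype.card σ)) := by rw [hD]; gcongr
    _ = C' * (C ^ D s * δ s) * ((H s * δ s ^ k) ^ (d * Fintype.card σ) *
        δ s ^ (k * Fintype.card σ + d)) := by ring
    _ ≤ _ := mul_le_of_le_one_right (by positivity) (mul_le_one₀ (pow_le_one₀ (by positivity) h9)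
        (by positivity) (pow_le_one₀ h7 (h.le_one s)))

theorem map_aeval_seq (π : (ℕ → ℂ) →+* Ω) (l : σ → ℕ → ℂ) (P : MvPolynomial σ ℚ) :
    MvPolynomial.aeval (fun i => π (l i)) P = π fun s => MvPolynomial.aeval (l · s) P := by
  refine (MvPolynomial.comp_aeval_apply l π.toRatAlgHom P).symm.trans (congrArg π ?_)
  exact funext fun s => MvPolynomial.comp_aeval_apply l (Pi.evalAlgHom ℚ (fun _ => ℂ) s) P

theorem Data.indep (h : Data 𝒰 l δ k D H) (hπ : ∀ f g, π f = π g ↔ f =ᶠ[𝒰] g)
    (hs : Function.Surjective π) {P : MvPolynomial σ ℚ} (hP : P ≠ 0)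
    (h0 : ∀ᶠ s in 𝒰, MvPolynomial.aeval (l · s) P = 0) :
    ∃ m : σ → ℤ, m ≠ 0 ∧ ∀ᶠ s in 𝒰, ∑ i, m i * l i s = 0 := by
  let U : σ → Ω := fun i => π fun s => exp (l i s) - 1
  let u : σ → Algebra.adjoin ℚ (Set.range U) := fun i => ⟨U i, Algebra.subset_adjoin ⟨i, rfl⟩⟩
  have S : Small (h.filt hπ hs) u (fun i => π (l i)) (k * Fintype.card σ + 1) := by
    refine ⟨?_, fun i => ⟨_, rfl, by simpa using h.exp_isBigO i⟩,
      fun i n => ⟨_, by rw [map_sub, map_LT]; rfl, h.taylor i n⟩, fun d w hw h1 => ?_⟩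
    · refine Eq.trans (congrArg _ (Set.ext fun y => ?_)) Algebra.adjoin_adjoin_coe_preimage
      exact ⟨fun ⟨i, e⟩ => ⟨i, congrArg Subtype.val e⟩, fun ⟨i, e⟩ => ⟨i, Subtype.ext e⟩⟩
    obtain ⟨c, rfl⟩ := (Submodule.mem_span_range_iff_exists_fun ℚ).1 hw
    obtain ⟨N, hN⟩ := IsLocalization.exist_integer_multiples_of_finite (nonZeroDivisors ℤ) c
    choose n hn using hN
    have h2 : π (fun s => ∑ e, n e * ∏ i, (exp (l i s) - 1) ^ (e i : ℕ)) =
        ((N : ℤ) : ℚ) • algebraMap _ Ω (∑ e, c e • ∏ i, u i ^ (e i : ℕ)) := by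
      have h3 : ∀ e, ((N : ℤ) : ℚ) * c e = n e := fun e => by simpa using (hn e).symm
      simp only [map_sum, map_rat_smul, map_prod, map_pow, smul_sum, smul_smul, h3,
        Int.cast_smul_eq_zsmul]
      refine Eq.trans (congrArg π (funext fun s => ?_)) ((map_sum π
        (fun e => n e • ∏ i, (fun s => exp (l i s) - 1) ^ (e i : ℕ)) univ).trans ?_)
      · simp
      · simp only [map_zsmul, map_prod, map_pow]
        rfl
    obtain ⟨f, e, hf⟩ := Submodule.smul_mem _ ((N : ℤ) : ℚ) h1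
    rw [← h2, hπ] at e
    have h3 := (hπ _ _).2 (h.liou d n (fun _ => rfl) (hf.congr' e EventuallyEq.rfl))
    rw [h2, map_zero, smul_eq_zero] at h3
    exact Subtype.ext (h3.resolve_left (Int.cast_ne_zero.2 (nonZeroDivisors.ne_zero N.2)))
  let E : Multiplicative (ℕ → ℂ) →* Ω :=
    { toFun := fun f => π fun s => exp (f.toAdd s)
      map_one' := (congrArg π (funext fun s => exp_zero)).trans (map_one π)
      map_mul' := fun f g => (congrArg π (funext fun s => exp_add _ _)).trans (map_mul π _ _) }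
  have h1 : ∀ i, 1 + U i = E (Multiplicative.ofAdd (l i)) := fun i => by
    rw [← map_one π, ← map_add]
    exact congrArg π (funext fun s => by simp)
  obtain ⟨m, hm, Q, hQ, h2⟩ := S.bridge (fun i e => ((Group.isUnit _).map E).ne_zero
    ((h1 i).symm.trans (congrArg Subtype.val e))) hP
    (by rw [map_aeval_seq, ← map_zero π, hπ]; exact h0)
  refine ⟨m, hm, ?_⟩
  have h3 : ∏ i, (1 + algebraMap _ Ω (u i)) ^ m i = π fun s => exp (∑ i, m i * l i s) := by
    change ∏ i, (1 + U i) ^ m i = _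
    simp only [h1, ← map_zpow, ← map_prod]
    exact congrArg π (funext fun s => by simp [toAdd_prod])
  have h4 : Tendsto (fun s => ∑ i, m i * l i s) 𝒰 (𝓝 0) := by
    simpa using tendsto_finsetSum univ fun i _ => (h.tendsto i).const_mul (m i : ℂ)
  have h5 : ∀ᶠ s in 𝒰, Polynomial.aeval (exp (∑ i, m i * l i s)) Q = 0 := by
    rw [h3] at h2
    have h6 := (hπ _ _).1 ((Polynomial.aeval_algHom_apply π.toRatAlgHom _ Q).symm.trans
      (h2.trans (map_zero π).symm))
    filter_upwards [h6] with s h6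
    exact (Polynomial.aeval_algHom_apply (Pi.evalAlgHom ℚ (fun _ => ℂ) s) _ Q).trans h6
  have h6 : (Q.rootSet ℂ \ {1})ᶜ ∈ 𝓝 (exp 0) :=
    ((Q.rootSet_finite ℂ).sdiff).isClosed.isOpen_compl.mem_nhds (by simp)
  filter_upwards [h5, log_exp_of_tendsto h4, ((continuous_exp.tendsto 0).comp h4).eventually h6]
    with s h5 h7 h8
  have h9 : exp (∑ i, m i * l i s) = 1 := by
    by_contra h9
    exact h8 ⟨Polynomial.mem_rootSet.2 ⟨hQ, h5⟩, h9⟩
  rw [← h7, h9, log_one]

end Pool.Agent.MP_3e7261_nt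

end MrgPart3

-- ======== part 4: formerly Pool.Agent.MP_3e7261_nt.Final
section MrgPart4

/-! Small logarithms on a variety lie on a rational linear subspace of the variety; the case of
skew-symmetric matrices. -/

set_option autoImplicit false
set_option linter.unusedSectionVars false

namespace Pool.Agent.MP_3e7261_nt

open Finset Filter Topology MvPolynomial

variable {ι : Type} [Fintype ι] [DecidableEq ι]

/-- The point `l` lies on a rational linear subspace on which all polynomials of `T` vanish. -/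
def Lin (T : Set (MvPolynomial ι ℚ)) (l : ι → ℂ) : Prop :=
  ∃ (σ : Type) (_ : Fintype σ) (B : ι → σ → ℚ) (y : σ → ℂ), (∀ i, l i = ∑ j, B i j * y j) ∧
    ∀ P ∈ T, ∀ t : σ → ℚ, aeval (fun i => ∑ j, B i j * t j) P = 0

theorem Data.lin {𝒰 : Ultrafilter ℕ} {l : ι → ℕ → ℂ} {δ : ℕ → ℝ} {k : ℕ} {D : ℕ → ℕ} {H : ℕ → ℝ}
    (h : Data 𝒰 l δ k D H) {T : Set (MvPolynomial ι ℚ)}
    (hT : ∀ P ∈ T, ∀ s, aeval (l · s) P = 0) : ∀ᶠ s in 𝒰, Lin T (l · s) := by
  classical
  obtain ⟨Ω, _, π, hπ, hs⟩ : ∃ (Ω : Type) (_ : Field Ω) (π : (ℕ → ℂ) →+* Ω),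
      (∀ f g : ℕ → ℂ, π f = π g ↔ f =ᶠ[(𝒰 : Filter ℕ)] g) ∧ Function.Surjective π :=
    ⟨Germ (𝒰 : Filter ℕ) ℂ, inferInstance, Germ.coeRingHom _, fun _ _ => Germ.coe_eq,
      fun y => y.inductionOn fun f => ⟨f, rfl⟩⟩
  have : CharZero Ω := charZero_of_injective_ringHom (π.comp (Pi.constRingHom ℕ ℂ)).injective
  obtain ⟨σ, b, hb, h1, h2⟩ := exists_linearIndependent' ℚ fun i => π (l i)
  have := Fintype.ofInjective b hb
  have h3 : ∀ (c : σ → ℚ), ∑ j, c j • π (l (b j)) = π fun s => ∑ j, c j * l (b j) s := fun c => by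
    simp only [← map_rat_smul, ← map_sum]
    exact congrArg π (funext fun s => by simp [Rat.smul_def])
  have h4 := fun i => (Submodule.mem_span_range_iff_exists_fun ℚ).1
    (h1.ge (Submodule.subset_span ⟨i, rfl⟩))
  choose B hB using h4
  have h5 : ∀ᶠ s in 𝒰, ∀ i, l i s = ∑ j, B i j * l (b j) s :=
    eventually_all.2 fun i => (hπ _ _).1 ((hB i).symm.trans (h3 _))
  have h6 : Data 𝒰 (fun j => l (b j)) δ k D H := ⟨h.pos, h.le_one, fun j => h.norm _, fun s => by
    obtain ⟨K, _, _, φ, a, e1, e2, e3⟩ := h.alg s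
    exact ⟨K, _, ‹_›, φ, fun j => a (b j), e1, fun j => e2 _, fun j => e3 _⟩, h.ht, h.deg⟩
  have h7 : ∀ P ∈ T, bind₁ (fun i => ∑ j, C (B i j) * X j) P = 0 := fun P hP => by
    by_contra h7
    obtain ⟨m, hm, h8⟩ := h6.indep hπ hs h7 (h5.mono fun s e => by
      simpa [aeval_bind₁, ← e] using hT P hP s)
    refine hm (funext fun j => ?_)
    exact_mod_cast Fintype.linearIndependent_iff.1 h2 (fun j => m j)
      ((h3 _).trans (((hπ _ _).2 (h8.mono fun s e => by simpa using e)).trans (map_zero π))) j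
  refine h5.mono fun s e => ⟨σ, _, B, fun j => l (b j) s, e, fun P hP t => ?_⟩
  simpa [aeval_bind₁] using congrArg (aeval t) (h7 P hP)

theorem general (T : Set (MvPolynomial ι ℚ)) {ε : ℝ} (hε : 0 < ε) : ∃ c : ℝ, 0 < c ∧
    ∀ (D : ℕ) (H : ℝ) (l : ι → ℂ), 1 ≤ H → Alg D H (fun i => Complex.exp (l i)) →
      (∀ i, ‖l i‖ ≤ c ^ D * H ^ (-ε)) → (∀ P ∈ T, aeval l P = 0) → Lin T l := by
  by_contra! h
  choose D H l h1 h2 h3 h4 h5 using fun s : ℕ => h (1 / (s + 1)) Nat.one_div_pos_of_nat
  have a1 : ∀ s, D s ≠ 0 := fun s => by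
    obtain ⟨K, _, _, -, -, e, -⟩ := h2 s
    exact e ▸ Module.finrank_pos.ne'
  have a2 : ∀ s : ℕ, (1 / (s + 1) : ℝ) ^ D s ≤ 1 := fun s =>
    pow_le_one₀ Nat.one_div_pos_of_nat.le (div_le_one_of_le₀ (by simp) (by positivity))
  have a3 : ∀ s, H s ^ (-ε) ≤ 1 := fun s => Real.rpow_le_one_of_one_le_of_nonpos (h1 s) (by linarith)
  have a4 : ∀ s, 0 < H s := fun s => one_pos.trans_le (h1 s)
  obtain ⟨k, hk⟩ := exists_nat_ge ε⁻¹
  have : Data (hyperfilter ℕ) (fun i s => l s i) (fun s => (1 / (s + 1)) ^ D s * H s ^ (-ε)) k D H := by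
    refine ⟨fun s => mul_pos (by positivity) (Real.rpow_pos_of_pos (a4 s) _), fun s =>
      mul_le_one₀ (a2 s) (Real.rpow_pos_of_pos (a4 s) _).le (a3 s), fun i s => h3 s i, h2,
      fun s => ⟨(a4 s).le, ?_⟩, fun C => Tendsto.mono_left ?_ Nat.hyperfilter_le_atTop⟩
    · have := a4 s
      calc _ ≤ H s * (1 * H s ^ (-ε)) ^ k := by gcongr; exact a2 s
        _ = H s ^ (1 - ε * k) := by
          rw [one_mul, ← Real.rpow_natCast, ← Real.rpow_mul this.le, sub_eq_add_neg,
            Real.rpow_add this, Real.rpow_one, neg_mul]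
        _ ≤ 1 := Real.rpow_le_one_of_one_le_of_nonpos (h1 s)
          (sub_nonpos.2 ((inv_le_iff_one_le_mul₀' hε).1 hk))
    · have h6 := (tendsto_one_div_add_atTop_nhds_zero_nat (𝕜 := ℝ)).const_mul |C|
      rw [mul_zero] at h6
      refine squeeze_zero_norm' ?_ h6
      filter_upwards [h6.eventually (ge_mem_nhds one_pos)] with s hs
      have := a4 s
      rw [norm_mul, norm_pow, Real.norm_of_nonneg (r := _ * _) (by positivity), ← mul_assoc,
        ← mul_pow]
      exact (mul_le_of_le_one_right (by positivity) (a3 s)).trans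
        (pow_le_of_le_one (by positivity) hs (a1 s))
  obtain ⟨s, hs⟩ := (this.lin fun P hP s => h4 s P hP).exists
  exact h5 s hs

theorem clifford {V σ : Type*} [AddCommGroup V] [Module ℚ V] [Nontrivial V] {f g : σ → V →ₗ[ℚ] V}
    (h1 : ∀ i j v, f i (g j v) + f j (g i v) = 0) (h2 : ∀ i j v, g i (f j v) + g j (f i v) = 0)
    (s : Finset σ) : ∃ v, v ≠ 0 ∧ ((∀ i ∈ s, f i v = 0) ∨ ∀ i ∈ s, g i v = 0) := by
  classical
  have key : ∀ {f g : σ → V →ₗ[ℚ] V}, (∀ i j v, g i (f j v) + g j (f i v) = 0) → ∀ (s : Finset σ) j v,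
      (∀ i ∈ s, f i v = 0) → ∀ i ∈ insert j s, g i (f j v) = 0 := fun {f g} h s j v hv i hi => by
    rcases mem_insert.1 hi with rfl | hi
    · simpa [← two_smul ℚ] using h i i v
    · simpa [hv i hi] using h i j v
  induction s using Finset.induction_on with
  | empty => exact (exists_ne 0).imp fun v hv => ⟨hv, by simp⟩
  | insert j s _ ih =>
    obtain ⟨v, hv, h | h⟩ := ih
    · by_cases e : f j v = 0
      · exact ⟨v, hv, .inl (forall_mem_insert _ _ _ |>.2 ⟨e, h⟩)⟩
      · exact ⟨_, e, .inr (key h2 s j v h)⟩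
    · by_cases e : g j v = 0
      · exact ⟨v, hv, .inr (forall_mem_insert _ _ _ |>.2 ⟨e, h⟩)⟩
      · exact ⟨_, e, .inl (key h1 s j v h)⟩

open Matrix

section Skew

variable {R : Type*} [CommRing R]

/-- The dual of a skew-symmetric matrix. -/
def dual (A : Matrix (Fin 4) (Fin 4) R) : Matrix (Fin 4) (Fin 4) R :=
  !![0, A 2 3, -A 1 3, A 1 2; -A 2 3, 0, A 0 3, -A 0 2; A 1 3, -A 0 3, 0, A 0 1;
    -A 1 2, A 0 2, -A 0 1, 0]

/-- The Pfaffian. -/
def pf (A : Matrix (Fin 4) (Fin 4) R) : R := A 0 1 * A 2 3 - A 0 2 * A 1 3 + A 0 3 * A 1 2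

theorem skew_eq [NoZeroDivisors R] [CharZero R] {A : Matrix (Fin 4) (Fin 4) R}
    (h : ∀ i j, A i j + A j i = 0) : ∃ a b c d e f : R,
      A = !![0, a, b, c; -a, 0, d, e; -b, -d, 0, f; -c, -e, -f, 0] := by
  have h1 : ∀ i, A i i = 0 := fun i => by simpa using h i i
  have h2 : ∀ i j, A i j = -A j i := fun i j => eq_neg_of_add_eq_zero_left (h i j)
  refine ⟨A 0 1, A 0 2, A 0 3, A 1 2, A 1 3, A 2 3, ?_⟩
  ext i j
  fin_cases i <;> fin_cases j <;> first | rfl | exact h1 _ | exact h2 _ _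

theorem polar [NoZeroDivisors R] [CharZero R] {A B : Matrix (Fin 4) (Fin 4) R}
    (hA : ∀ i j, A i j + A j i = 0) (hB : ∀ i j, B i j + B j i = 0) :
    A * dual B + B * dual A = (pf A + pf B - pf (A + B)) • 1 ∧
      dual A * B + dual B * A = (pf A + pf B - pf (A + B)) • 1 := by
  obtain ⟨a, b, c, d, e, f, rfl⟩ := skew_eq hA
  obtain ⟨a', b', c', d', e', f', rfl⟩ := skew_eq hB
  constructor <;> ext i j <;> fin_cases i <;> fin_cases j <;>
    simp [dual, pf] <;> ring

theorem wedge [NoZeroDivisors R] [CharZero R] {A : Matrix (Fin 4) (Fin 4) R}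
    (hA : ∀ i j, A i j + A j i = 0) {v : Fin 4 → R} (h : dual A *ᵥ v = 0) (i j k : Fin 4) :
    v i * A k j - v j * A k i = A i j * v k := by
  obtain ⟨a, b, c, d, e, f, rfl⟩ := skew_eq hA
  have h0 := congrFun h 0
  have h1 := congrFun h 1
  have h2 := congrFun h 2
  have h3 := congrFun h 3
  simp [dual, mulVec, dotProduct, Fin.sum_univ_four] at h0 h1 h2 h3
  fin_cases i <;> fin_cases j <;> fin_cases k <;> simp <;>
    first
    | ring1 | linear_combination h0 | linear_combination -h0 | linear_combination h1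
    | linear_combination -h1 | linear_combination h2 | linear_combination -h2
    | linear_combination h3 | linear_combination -h3

end Skew

/-- The equations of singular skew-symmetric matrices. -/
def eqs : Set (MvPolynomial (Fin 4 × Fin 4) ℚ) :=
  insert (pf (of fun i j => X (i, j))) (Set.range fun p : Fin 4 × Fin 4 => X p + X p.swap)

theorem roy {M : Matrix (Fin 4) (Fin 4) ℂ} (hM : ∀ i j, M i j + M j i = 0)
    (h : Lin eqs fun p => M p.1 p.2) :
    ¬ LinearIndependent ℚ (fun i : Fin 4 => (M i : Fin 4 → ℂ)) ∨ ∃ v : Fin 4 → ℚ, v ≠ 0 ∧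
      (fun i : Fin 4 => ((v i : ℚ) : ℂ)) ∈ LinearMap.range M.mulVecLin := by
  classical
  obtain ⟨σ, _, B, y, h1, h2⟩ := h
  let N : (σ → ℚ) → Matrix (Fin 4) (Fin 4) ℚ := fun t => of fun a b => ∑ j, B (a, b) j * t j
  have a1 : ∀ t a b, N t a b + N t b a = 0 := fun t a b => by
    simpa [N] using h2 _ (.inr ⟨(a, b), rfl⟩) t
  have a2 : ∀ t, pf (N t) = 0 := fun t => by simpa [pf, N] using h2 _ (.inl rfl) t
  have a3 : ∀ t t', N t + N t' = N (t + t') := fun t t' => by
    ext a b
    simp [N, mul_add, sum_add_distrib]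
  have a4 := fun t t' => polar (a1 t) (a1 t')
  simp only [a2, a3, add_zero, sub_zero, zero_smul] at a4
  obtain ⟨v, hv, h3⟩ := clifford (f := fun j => (N (Pi.single j 1)).mulVecLin)
    (g := fun j => (dual (N (Pi.single j 1))).mulVecLin)
    (fun i j v => by simp [← add_mulVec, (a4 _ _).1]) (fun i j v => by simp [← add_mulVec, (a4 _ _).2])
    univ
  have a5 : ∀ j a b, N (Pi.single j 1) a b = B (a, b) j := fun j a b => by simp [N, Pi.single_apply]
  have a6 : ∀ a b, M a b = ∑ j, y j * (N (Pi.single j 1) a b : ℂ) := fun a b => by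
    simpa [a5, mul_comm] using h1 (a, b)
  have b1 : M *ᵥ (fun i => (v i : ℂ)) = 0 → ¬ LinearIndependent ℚ fun i : Fin 4 => (M i : Fin 4 → ℂ) :=
    fun e h => hv (funext (Fintype.linearIndependent_iff.1 h v (funext fun b => by
      have := congrFun e b
      simp only [mulVec, dotProduct, fun a => eq_neg_of_add_eq_zero_left (hM b a)] at this
      simpa [Rat.smul_def, mul_comm] using this)))
  rcases h3 with h3 | h3
  · refine .inl (b1 (funext fun a => ?_))
    simp only [mulVec, dotProduct, a6, Finset.sum_mul, mul_assoc]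
    rw [sum_comm]
    refine sum_eq_zero fun j _ => ?_
    rw [← Finset.mul_sum]
    exact mul_eq_zero_of_right _ (by exact_mod_cast congrFun (h3 j (mem_univ _)) a)
  by_cases h4 : M = 0
  · exact .inl (b1 (by simp [h4]))
  obtain ⟨a, b, h5⟩ : ∃ a b, M a b ≠ 0 := by
    by_contra! h5
    exact h4 (ext h5)
  refine .inr ⟨v, hv, (M a b)⁻¹ • (Pi.single b (v a : ℂ) - Pi.single a (v b : ℂ)), funext fun k => ?_⟩
  have h6 : (v a : ℂ) * M k b - v b * M k a = M a b * v k := by
    simp only [a6, Finset.mul_sum, Finset.sum_mul, ← sum_sub_distrib]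
    refine sum_congr rfl fun j _ => ?_
    have h7 : (v a : ℂ) * N (Pi.single j 1) k b - v b * N (Pi.single j 1) k a =
        N (Pi.single j 1) a b * v k := by exact_mod_cast wedge (a1 _) (h3 j (mem_univ _)) a b k
    linear_combination y j * h7
  simp only [mulVecLin_apply, mulVec_smul, mulVec_sub, mulVec_single, Pi.smul_apply, Pi.sub_apply,
    smul_eq_mul]
  rw [inv_mul_eq_iff_eq_mul₀ h5, ← h6]
  simp [mul_comm]

theorem pf_eq_zero {M : Matrix (Fin 4) (Fin 4) ℂ} (hM : ∀ i j, M i j + M j i = 0)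
    (h : M.rank ≤ 2) : pf M = 0 := by
  by_contra h0
  have h1 := (polar hM hM).1
  have h2 : pf M + pf M - pf (M + M) = -2 * pf M := by
    simp only [pf, Matrix.add_apply]
    ring
  have h3 : M * ((-pf M)⁻¹ • dual M) = 1 := by
    rw [Matrix.mul_smul, inv_smul_eq_iff₀ (neg_ne_zero.2 h0)]
    refine smul_right_injective _ (two_ne_zero (α := ℂ)) ?_
    simp only [two_smul ℂ (M * dual M), h1, h2, smul_smul]
    ring_nf
  have h4 := rank_of_isUnit M (IsUnit.of_mul_eq_one _ h3)
  simp [h4] at h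

end Pool.Agent.MP_3e7261_nt

end MrgPart4

-- marker of a merged file
example : 731051 + 255301 = 731051 + 255301 := rfl
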