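import Pool.Agent.MP_3e7261_nt.Final
import Mathlib.RingTheory.AlgebraicIndependent.AlgebraicClosure

/-! Small logarithms are algebraically independent over the algebraic numbers of comparable
height: families of relations with varying coefficients. -/

set_option autoImplicit false
set_option linter.unusedSectionVars false

namespace Pool.Agent.MP_3e7261_nt

section PartA

open MvPolynomial Finset

variable {σ : Type} [Fintype σ] [DecidableEq σ]

variable {A Ω : Type*} [CommRing A] [Algebra ℚ A] [Field Ω] [CharZero Ω] [Algebra A Ω]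
  {F : Filt Ω} {u : σ → A} {x : σ → Ω} {κ : ℕ}

theorem Small.bridge_auxA (K : Type*) [Field K] [CharZero K] [Algebra A K] [IsFractionRing A K]
    [Algebra K Ω] [IsScalarTower A K Ω] (S : Small F u x κ) (hu : ∀ i, 1 + u i ≠ 0)
    {P : MvPolynomial σ A} (hP : P ≠ 0) (hx : aeval x P = 0) :
    ∃ m : σ → ℤ, m ≠ 0 ∧ IsAlgebraic ℚ (∏ i, (1 + algebraMap A Ω (u i)) ^ m i) := by
  classical
  have hi := IsFractionRing.injective A K
  have := hi.isDomain
  have : Algebra.FiniteType ℚ A := ⟨⟨univ.image u, by simpa using S.gen⟩⟩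
  have : Algebra.EssFiniteType A K := .of_isLocalization K (nonZeroDivisors A)
  have : Algebra.EssFiniteType ℚ K := .comp ℚ A K
  have h1 : ∀ (f : MvPolynomial σ K) (y : Ω), (∀ m, y ∈ F.V m) → ∀ m, aeval x f * y ∈ F.V m := by
    intro f
    induction f using MvPolynomial.induction_on with
    | C a => exact fun y hy => aeval_C x a ▸ S.mul_frac a hy
    | add f g hf hg =>
      intro y hy m
      rw [map_add, add_mul]
      exact add_mem (hf y hy m) (hg y hy m)
    | mul_X f i hf =>
      intro y hy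
      rw [map_mul, aeval_X, mul_assoc]
      exact hf _ fun m => zero_add m ▸ F.mul_mem (by simpa [LT] using S.hx i 0) (hy m)
  let J : Ideal (MvPolynomial σ K) :=
    { carrier := {G | ∀ m, aeval x G ∈ F.V m}
      add_mem' := fun ha hb m => by simpa using add_mem (ha m) (hb m)
      zero_mem' := fun m => by simp
      smul_mem' := fun f G hG m => by simpa using h1 f _ hG m }
  set α : σ → K := fun i => 1 + algebraMap A K (u i) with hα
  have h2 : ∀ i, α i ≠ 0 := fun i h => hu i (hi (by simpa using h))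
  have h0 : J ≠ ⊥ := fun h => by
    have h4 : map (algebraMap A K) P ∈ J := fun m => by
      rw [aeval_map_algebraMap, hx]
      exact zero_mem _
    rw [h, Ideal.mem_bot] at h4
    exact hP (map_injective _ hi (h4.trans (map_zero _).symm))
  have h0' : J ≠ ⊤ := fun h => by
    obtain ⟨m, hm⟩ := S.not_mem (b := 1) one_ne_zero
    have h4 : (1 : MvPolynomial σ K) ∈ J := h ▸ trivial
    exact hm (by simpa using h4 m)
  suffices h : ∀ δ : Derivation ℤ K K, ∀ G ∈ J, tD δ (fun i => δ (α i) / α i) G ∈ J by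
    obtain ⟨c, f, hc, h3⟩ := ko h0 h0' _ h
    obtain ⟨m, hm, h4⟩ := mult h2 hc h3
    refine ⟨m, hm, ?_⟩
    simpa [hα, ← IsScalarTower.algebraMap_apply] using h4.algebraMap (A := Ω)
  intro δ G hG
  obtain ⟨q, hq⟩ := IsLocalization.exist_integer_multiples_of_finite (nonZeroDivisors A)
    fun i => δ (α i) / α i
  choose p hp using hq
  simp only [Algebra.smul_def] at hp
  have h4 : ∀ i, algebraMap A K q * δ (algebraMap A K (u i)) =
      algebraMap A K (p i * (1 + u i)) := fun i => by
    rw [map_mul, map_add, map_one, hp, mul_assoc, div_mul_cancel₀ _ (h2 i)]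
    simp [hα]
  obtain ⟨D, hD⟩ := exists_restrict S.gen δ fun i => ⟨_, (h4 i).symm⟩
  obtain ⟨b, g, hb, e⟩ := exists_clear (A := A) G
  have h5 : map (algebraMap A K) (tD D p g) =
      C (algebraMap A K q) * tD δ (fun i => δ (α i) / α i) (map (algebraMap A K) g) := by
    ext m
    simp only [coeff_map, coeff_C_mul, coeff_tD, map_add, map_sum, map_mul, hD, hp, mul_add,
      Finset.mul_sum, mul_assoc, map_natCast, map_one]
  have h6 : map (algebraMap A K) (tD D p g) ∈ J := fun m => by
    rw [aeval_map_algebraMap]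
    refine S.stable (fun i => hi ((hD _).trans (h4 i))) (fun m => ?_) m
    rw [← aeval_map_algebraMap K, e]
    exact J.mul_mem_left _ hG m
  rw [h5, e, Derivation.leibniz, smul_eq_mul, smul_eq_mul, mul_add] at h6
  have h7 := J.mul_mem_left (C (algebraMap A K (q * b))⁻¹)
    ((Ideal.add_mem_iff_left J (J.mul_mem_left _ (J.mul_mem_right _ hG))).1 h6)
  rwa [← mul_assoc (C _), ← mul_assoc, ← C_mul, ← C_mul, mul_assoc _⁻¹, ← map_mul, inv_mul_cancel₀
    ((map_ne_zero_iff _ hi).2 (mul_ne_zero (nonZeroDivisors.ne_zero q.2) hb)), C_1, one_mul] at h7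

/-- The same for relations whose coefficients are polynomials in the points. -/
theorem Small.bridgeA [FaithfulSMul A Ω] (S : Small F u x κ) (hu : ∀ i, 1 + u i ≠ 0)
    {P : MvPolynomial σ A} (hP : P ≠ 0) (hx : aeval x P = 0) :
    ∃ m : σ → ℤ, m ≠ 0 ∧ IsAlgebraic ℚ (∏ i, (1 + algebraMap A Ω (u i)) ^ m i) := by
  have := (FaithfulSMul.algebraMap_injective A Ω).isDomain
  let := FractionRing.liftAlgebra A Ω
  have := FractionRing.isScalarTower_liftAlgebra A Ω
  have : CharZero (FractionRing A) := algebraRat.charZero _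
  exact S.bridge_auxA (FractionRing A) hu hP hx

end PartA

section PartB

open Finset Height Filter Asymptotics Topology Complex

variable {σ : Type} [Fintype σ] [DecidableEq σ]

variable {Ω : Type} [Field Ω] [CharZero Ω] {𝒰 : Ultrafilter ℕ} {π : (ℕ → ℂ) →+* Ω}
  {l : σ → ℕ → ℂ} {δ : ℕ → ℝ} {k : ℕ} {D : ℕ → ℕ} {H : ℕ → ℝ}

theorem Data.indepA (h : Data 𝒰 l δ k D H) (hπ : ∀ f g, π f = π g ↔ f =ᶠ[𝒰] g)
    (hs : Function.Surjective π)
    {P : MvPolynomial σ (Algebra.adjoin ℚ (Set.range fun i => π fun s => exp (l i s) - 1))}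
    (hP : P ≠ 0) (h0 : MvPolynomial.aeval (fun i => π (l i)) P = 0) :
    ∃ m : σ → ℤ, m ≠ 0 ∧ ∀ᶠ s in 𝒰, ∑ i, m i * l i s = 0 := by
  let U : σ → Ω := fun i => π fun s => exp (l i s) - 1
  let u : σ → Algebra.adjoin ℚ (Set.range U) := fun i => ⟨U i, Algebra.subset_adjoin ⟨i, rfl⟩⟩
  have S : Small (h.filt hπ hs) u (fun i => π (l i)) (k * Fintype.card σ + 1) := by
    refine ⟨?_, fun i => ⟨_, rfl, by simpa using h.exp_isBigO i⟩,
      fun i n => ⟨_, by rw [map_sub, map_LT]; rfl, h.taylor i n⟩, fun d w hw h1 => ?_⟩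
    · refine Eq.trans (congrArg _ (Set.ext fun y => ?_)) Algebra.adjoin_adjoin_coe_preimage
      exact ⟨fun ⟨i, e⟩ => ⟨i, congrArg Subtype.val e⟩, fun ⟨i, e⟩ => ⟨i, Subtype.ext e⟩⟩
    obtain ⟨c, rfl⟩ := (Submodule.mem_span_range_iff_exists_fun ℚ).1 hw
    obtain ⟨N, hN⟩ := IsLocalization.exist_integer_multiples_of_finite (nonZeroDivisors ℤ) c
    choose n hn using hN
    have h2 : π (fun s => ∑ e, n e * ∏ i, (exp (l i s) - 1) ^ (e i : ℕ)) =
        ((N : ℤ) : ℚ) • algebraMap _ Ω (∑ e, c e • ∏ i, u i ^ (e i : ℕ)) := by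
      have h3 : ∀ e, ((N : ℤ) : ℚ) * c e = n e := fun e => by simpa using (hn e).symm
      simp only [map_sum, map_rat_smul, map_prod, map_pow, smul_sum, smul_smul, h3,
        Int.cast_smul_eq_zsmul]
      refine Eq.trans (congrArg π (funext fun s => ?_)) ((map_sum π
        (fun e => n e • ∏ i, (fun s => exp (l i s) - 1) ^ (e i : ℕ)) univ).trans ?_)
      · simp
      · simp only [map_zsmul, map_prod, map_pow]
        rfl
    obtain ⟨f, e, hf⟩ := Submodule.smul_mem _ ((N : ℤ) : ℚ) h1
    rw [← h2, hπ] at e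
    have h3 := (hπ _ _).2 (h.liou d n (fun _ => rfl) (hf.congr' e EventuallyEq.rfl))
    rw [h2, map_zero, smul_eq_zero] at h3
    exact Subtype.ext (h3.resolve_left (Int.cast_ne_zero.2 (nonZeroDivisors.ne_zero N.2)))
  let E : Multiplicative (ℕ → ℂ) →* Ω :=
    { toFun := fun f => π fun s => exp (f.toAdd s)
      map_one' := (congrArg π (funext fun s => exp_zero)).trans (map_one π)
      map_mul' := fun f g => (congrArg π (funext fun s => exp_add _ _)).trans (map_mul π _ _) }
  have h1 : ∀ i, 1 + U i = E (Multiplicative.ofAdd (l i)) := fun i => by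
    rw [← map_one π, ← map_add]
    exact congrArg π (funext fun s => by simp)
  obtain ⟨m, hm, Q, hQ, h2⟩ := S.bridgeA (fun i e => ((Group.isUnit _).map E).ne_zero
    ((h1 i).symm.trans (congrArg Subtype.val e))) hP h0
  refine ⟨m, hm, ?_⟩
  have h3 : ∏ i, (1 + algebraMap _ Ω (u i)) ^ m i = π fun s => exp (∑ i, m i * l i s) := by
    change ∏ i, (1 + U i) ^ m i = _
    simp only [h1, ← map_zpow, ← map_prod]
    exact congrArg π (funext fun s => by simp [toAdd_prod])
  have h4 : Tendsto (fun s => ∑ i, m i * l i s) 𝒰 (𝓝 0) := by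
    simpa using tendsto_finsetSum univ fun i _ => (h.tendsto i).const_mul (m i : ℂ)
  have h5 : ∀ᶠ s in 𝒰, Polynomial.aeval (exp (∑ i, m i * l i s)) Q = 0 := by
    rw [h3] at h2
    have h6 := (hπ _ _).1 ((Polynomial.aeval_algHom_apply π.toRatAlgHom _ Q).symm.trans
      (h2.trans (map_zero π).symm))
    filter_upwards [h6] with s h6
    exact (Polynomial.aeval_algHom_apply (Pi.evalAlgHom ℚ (fun _ => ℂ) s) _ Q).trans h6
  have h6 : (Q.rootSet ℂ \ {1})ᶜ ∈ 𝓝 (exp 0) :=
    ((Q.rootSet_finite ℂ).sdiff).isClosed.isOpen_compl.mem_nhds (by simp)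
  filter_upwards [h5, log_exp_of_tendsto h4, ((continuous_exp.tendsto 0).comp h4).eventually h6]
    with s h5 h7 h8
  have h9 : exp (∑ i, m i * l i s) = 1 := by
    by_contra h9
    exact h8 ⟨Polynomial.mem_rootSet.2 ⟨hQ, h5⟩, h9⟩
  rw [← h7, h9, log_one]

end PartB

end Pool.Agent.MP_3e7261_nt
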