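import Pool.Agent.MP_3e7261_nt.FreeA

/-! Families of relations between small logarithms. -/

set_option autoImplicit false
set_option linter.unusedSectionVars false

namespace Pool.Agent.MP_3e7261_nt

open Finset Filter Topology MvPolynomial

variable {ι ι' κ : Type} [Fintype ι] [DecidableEq ι] [Fintype ι'] [DecidableEq ι'] [Fintype κ]
  [DecidableEq κ]

theorem alg_zpow {R Ω : Type*} [CommRing R] [IsDomain R] [Field Ω] [Algebra R Ω] {y : Ω}
    (h : IsAlgebraic R y) (n : ℤ) : IsAlgebraic R (y ^ n) := by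
  rcases n with n | n
  · simpa using h.pow n
  · rw [zpow_negSucc]
    exact (h.pow _).inv

theorem Data.fam {𝒰 : Ultrafilter ℕ} {l : ι' → ℕ → ℂ} {δ : ℕ → ℝ} {k : ℕ} {D : ℕ → ℕ} {H : ℕ → ℝ}
    (h : Data 𝒰 l δ k D H) (e : ι → ι') (v : κ → ℕ → ℂ)
    (hv : ∀ j, ∃ (i i' : ι') (m : ℕ), ∀ s, Complex.exp (l i s) - 1 ≠ 0 ∧
      v j s * (Complex.exp (l i s) - 1) ^ m = Complex.exp (l i' s) - 1)
    (G : MvPolynomial (ι ⊕ κ) ℚ)
    (hG : ∀ s, aeval (Sum.elim (fun i => l (e i) s) fun j => v j s) G = 0)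
    (ψ : ℕ → ℂ →ₗ[ℚ] ℚ) :
    ∀ᶠ s in 𝒰, aeval (Sum.elim (fun i => (ψ s (l (e i) s) : ℂ)) fun j => v j s) G = 0 := by
  classical
  obtain ⟨Ω, _, π, hπ, hs⟩ : ∃ (Ω : Type) (_ : Field Ω) (π : (ℕ → ℂ) →+* Ω),
      (∀ f g : ℕ → ℂ, π f = π g ↔ f =ᶠ[(𝒰 : Filter ℕ)] g) ∧ Function.Surjective π :=
    ⟨Germ (𝒰 : Filter ℕ) ℂ, inferInstance, Germ.coeRingHom _, fun _ _ => Germ.coe_eq,
      fun y => y.inductionOn fun f => ⟨f, rfl⟩⟩
  have : CharZero Ω := charZero_of_injective_ringHom (π.comp (Pi.constRingHom ℕ ℂ)).injective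
  obtain ⟨σ, b, hb, h1, h2⟩ := exists_linearIndependent' ℚ fun i => π (l i)
  have := Fintype.ofInjective b hb
  have h3 : ∀ (c : σ → ℚ) (y : σ → ℕ → ℂ),
      ∑ j, c j • π (y j) = π fun s => ∑ j, c j * y j s := fun c y => by
    simp only [← map_rat_smul, ← map_sum]
    exact congrArg π (funext fun s => by simp [Rat.smul_def])
  have h4 := fun i => (Submodule.mem_span_range_iff_exists_fun ℚ).1
    (h1.ge (Submodule.subset_span ⟨i, rfl⟩))
  choose B hB using h4
  have h5 : ∀ᶠ s in 𝒰, ∀ i, l i s = ∑ j, B i j * l (b j) s :=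
    eventually_all.2 fun i => (hπ _ _).1 ((hB i).symm.trans (h3 _ _))
  have h6 : Data 𝒰 (fun j => l (b j)) δ k D H := ⟨h.pos, h.le_one, fun j => h.norm _, fun s => by
    obtain ⟨K, _, _, φ, a, e1, e2, e3⟩ := h.alg s
    exact ⟨K, _, ‹_›, φ, fun j => a (b j), e1, fun j => e2 _, fun j => e3 _⟩, h.ht, h.deg⟩
  set R := Algebra.adjoin ℚ (Set.range fun j => π fun s => Complex.exp (l (b j) s) - 1) with hR
  have i1 : AlgebraicIndependent R fun j => π (l (b j)) := by
    refine algebraicIndependent_iff.2 fun P hP => ?_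
    by_contra h7
    obtain ⟨m, hm, h8⟩ := h6.indepA hπ hs h7 hP
    refine hm (funext fun j => ?_)
    exact_mod_cast Fintype.linearIndependent_iff.1 h2 (fun j => m j)
      ((h3 _ _).trans (((hπ _ _).2 (h8.mono fun s e => by simpa using e)).trans (map_zero π))) j
  have i2 := i1.subalgebraAlgebraicClosure
  let E : Multiplicative (ℕ → ℂ) →* Ω :=
    { toFun := fun f => π fun s => Complex.exp (f.toAdd s)
      map_one' := (congrArg π (funext fun s => Complex.exp_zero)).trans (map_one π)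
      map_mul' := fun f g =>
        (congrArg π (funext fun s => Complex.exp_add _ _)).trans (map_mul π _ _) }
  have a0 : ∀ f : ℕ → ℂ, π (fun s => Complex.exp (f s) - 1) = E (Multiplicative.ofAdd f) - 1 :=
    fun f => by
      rw [← map_one π]
      exact map_sub π (fun s => Complex.exp (f s)) 1
  have a1 : ∀ j, IsAlgebraic R (E (Multiplicative.ofAdd (l (b j)))) := fun j => by
    have h7 := (isAlgebraic_algebraMap (R := R) (A := Ω)
      ⟨_, Algebra.subset_adjoin ⟨j, rfl⟩⟩).add isAlgebraic_one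
    have h8 : E (Multiplicative.ofAdd (l (b j))) =
        π (fun s => Complex.exp (l (b j) s) - 1) + 1 := by rw [a0, sub_add_cancel]
    exact h8 ▸ h7
  have a2 : ∀ i, IsAlgebraic R (E (Multiplicative.ofAdd (l i))) := fun i => by
    obtain ⟨N, hN⟩ := IsLocalization.exist_integer_multiples_of_finite (nonZeroDivisors ℤ) (B i)
    choose n hn using hN
    have h7 : ∀ j, (((N : ℤ) : ℚ) : ℂ) * B i j = n j := fun j => by
      have h8 : ((N : ℤ) : ℚ) * B i j = n j := by simpa using (hn j).symm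
      exact_mod_cast h8
    have h8 : E (Multiplicative.ofAdd (l i)) ^ (N : ℤ) =
        ∏ j, E (Multiplicative.ofAdd (l (b j))) ^ n j := by
      simp only [← map_zpow, ← map_prod]
      refine (hπ _ _).2 (h5.mono fun s hs => ?_)
      simp only [toAdd_zpow, toAdd_ofAdd, toAdd_prod, Finset.sum_apply, zsmul_eq_mul, Pi.mul_apply,
        Pi.intCast_apply]
      rw [hs i, Finset.mul_sum]
      refine congrArg _ (sum_congr rfl fun j _ => ?_)
      rw [← h7, ← mul_assoc]
      simp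
    have h9 : IsAlgebraic R (E (Multiplicative.ofAdd (l i)) ^ (N : ℤ)) := by
      rw [h8]
      exact prod_induction _ _ (fun _ _ => IsAlgebraic.mul) isAlgebraic_one
        fun j _ => alg_zpow (a1 j) _
    have h10 : (N : ℤ) ≠ 0 := nonZeroDivisors.ne_zero N.2
    refine IsAlgebraic.of_pow (n := (N : ℤ).natAbs * (N : ℤ).natAbs) (by positivity) ?_
    rw [← zpow_natCast, Nat.cast_mul, Int.natAbs_mul_self', zpow_mul]
    exact alg_zpow h9 _
  have a3 : ∀ j, IsAlgebraic R (π (v j)) := fun j => by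
    obtain ⟨i, i', m, h7⟩ := hv j
    have h8 : π (fun s => Complex.exp (l i s) - 1) ≠ 0 := fun h8 => by
      obtain ⟨s, hs⟩ := ((hπ _ _).1 (h8.trans (map_zero π).symm)).exists
      exact (h7 s).1 hs
    have h9 : π (v j) * π (fun s => Complex.exp (l i s) - 1) ^ m =
        π fun s => Complex.exp (l i' s) - 1 := by
      rw [← map_pow, ← map_mul]
      exact congrArg π (funext fun s => (h7 s).2)
    rw [(eq_mul_inv_iff_mul_eq₀ (pow_ne_zero _ h8)).2 h9, a0, a0]
    exact ((a2 _).sub isAlgebraic_one).mul (((a2 _).sub isAlgebraic_one).pow _).inv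
  let S := Subalgebra.algebraicClosure R Ω
  let w : κ → S := fun j => ⟨π (v j), a3 j⟩
  let P : MvPolynomial σ S :=
    aeval (Sum.elim (fun i => ∑ j, B (e i) j • X j) fun j => C (w j)) G
  have b1 : ∀ y : σ → ℕ → ℂ, aeval (fun j => π (y j)) P =
      π fun s => aeval (Sum.elim (fun i => ∑ j, B (e i) j * y j s) fun j => v j s) G := fun y => by
    have h7 := map_aeval_seq π
      (Sum.elim (fun i s => ∑ j, B (e i) j * y j s) v : ι ⊕ κ → ℕ → ℂ) G
    have h8 := comp_aeval_apply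
      (Sum.elim (fun i => ∑ j, B (e i) j • X j) fun j => C (w j) : ι ⊕ κ → MvPolynomial σ S)
      ((aeval (fun j => π (y j)) : MvPolynomial σ S →ₐ[S] Ω).restrictScalars ℚ) G
    refine h8.trans (Eq.trans ?_ (h7.trans (congrArg π (funext fun s => ?_))))
    · refine congrArg (fun f => aeval f G) (funext fun i => ?_)
      rcases i with i | j
      · simp [← h3]
      · simp [w]
    · refine congrArg (fun f => aeval f G) (funext fun i => ?_)
      rcases i with i | j <;> rfl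
  have b2 : P = 0 := algebraicIndependent_iff.1 i2 P (by
    rw [b1, ← map_zero π, hπ]
    filter_upwards [h5] with s hs
    simpa [← hs] using hG s)
  have b3 := b1 fun j s => (ψ s (l (b j) s) : ℂ)
  rw [b2, map_zero, ← map_zero π, hπ] at b3
  filter_upwards [h5, b3] with s hs h7
  have h8 : ∀ i, ∑ j, B i j * (ψ s (l (b j) s) : ℂ) = (ψ s (l i s) : ℂ) := fun i => by
    rw [hs i, map_sum]
    simp [← Rat.smul_def]
  simp only [h8] at h7
  exact h7.symm

theorem aux_height {K : Type} [Field K] [NumberField K] {a w : K} {H : ℝ} (m : ℕ)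
    (ha : Height.mulHeight₁ a ≤ H) (hw : Height.mulHeight₁ w ≤ H) :
    Height.mulHeight₁ (1 + w * (a - 1) ^ m) ≤ (2 ^ Module.finrank ℚ K * H) ^ (m + 1) := by
  have h0 : 0 ≤ H := (Height.mulHeight₁_nonneg a).trans ha
  have h1 := Height.mulHeight₁_sub_le a 1
  have h2 := Height.mulHeight₁_add_le 1 (w * (a - 1) ^ m)
  have h3 := Height.mulHeight₁_mul_le w ((a - 1) ^ m)
  rw [NumberField.totalWeight_eq_finrank, Height.mulHeight₁_one] at h1 h2
  rw [Height.mulHeight₁_pow] at h3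
  have h4 : Height.mulHeight₁ (a - 1) ≤ 2 ^ Module.finrank ℚ K * H := by
    refine h1.trans ?_
    rw [mul_one]
    gcongr
  have h5 := Height.mulHeight₁_nonneg (a - 1)
  calc _ ≤ _ := h2
    _ ≤ 2 ^ Module.finrank ℚ K * 1 * (H * (2 ^ Module.finrank ℚ K * H) ^ m) := by
      gcongr
      refine h3.trans ?_
      gcongr
    _ = _ := by ring

/-- A relation between small logarithms with coefficients of comparable height holds on the
smallest rational subspace. -/
theorem family (G : MvPolynomial (ι ⊕ κ) ℚ) {ε : ℝ} (hε : 0 < ε) : ∃ c : ℝ, 0 < c ∧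
    ∀ (D : ℕ) (H : ℝ) (l : ι → ℂ) (v : κ → ℂ), 1 ≤ H →
      Alg D H (Sum.elim (fun i => Complex.exp (l i)) v) → (∀ i, ‖l i‖ ≤ c ^ D * H ^ (-ε)) →
      aeval (Sum.elim l v) G = 0 → ∀ ψ : ℂ →ₗ[ℚ] ℚ,
      aeval (Sum.elim (fun i => (ψ (l i) : ℂ)) v) G = 0 := by
  by_contra! h
  obtain ⟨k, hk⟩ := exists_nat_ge ε⁻¹
  have c0 : ∀ s : ℕ, (0 : ℝ) < (1 / 2) ^ (k + 3) * (1 / (s + 1)) := fun s => by positivity
  choose D H l v h1 h2 h3 h4 ψ h5 using fun s : ℕ => h _ (c0 s)
  set c : ℕ → ℝ := fun s => (1 / 2) ^ (k + 3) * (1 / (s + 1)) with hc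
  set δ : ℕ → ℝ := fun s => c s ^ D s * H s ^ (-ε) with hδ
  have a1 : ∀ s, D s ≠ 0 := fun s => by
    obtain ⟨K, _, _, -, -, e, -⟩ := h2 s
    exact e ▸ Module.finrank_pos.ne'
  have c1 : ∀ s : ℕ, (1 / (s + 1) : ℝ) ≤ 1 := fun s => div_le_one_of_le₀ (by simp) (by positivity)
  have c2 : ((1 / 2) ^ (k + 3) : ℝ) ≤ 1 / 2 :=
    pow_le_of_le_one (by norm_num) (by norm_num) (by omega)
  have c3 : ∀ s, c s ≤ (1 / 2) ^ (k + 3) := fun s => mul_le_of_le_one_right (by positivity) (c1 s)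
  have c4 : ∀ s, c s ≤ 1 / (s + 1) := fun s =>
    mul_le_of_le_one_left (by positivity) (c2.trans (by norm_num))
  have c5 : ∀ s, c s ≤ 1 := fun s => (c4 s).trans (c1 s)
  have a3 : ∀ s, H s ^ (-ε) ≤ 1 := fun s => Real.rpow_le_one_of_one_le_of_nonpos (h1 s) (by linarith)
  have a4 : ∀ s, 0 < H s := fun s => one_pos.trans_le (h1 s)
  have d0 : ∀ s, 0 < δ s := fun s => mul_pos (pow_pos (c0 s) _) (Real.rpow_pos_of_pos (a4 s) _)
  have d1 : ∀ s, δ s ≤ c s ^ D s := fun s => mul_le_of_le_one_right (pow_pos (c0 s) _).le (a3 s)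
  have d2 : ∀ s, δ s ≤ (1 / 2) ^ (k + 3) := fun s =>
    (d1 s).trans ((pow_le_of_le_one (c0 s).le (c5 s) (a1 s)).trans (c3 s))
  have d3 : ∀ s, δ s ≤ 1 := fun s => (d2 s).trans (c2.trans (by norm_num))
  have d4 : ∀ s, H s * δ s ^ k ≤ 1 := fun s => by
    have := a4 s
    have := (d0 s).le
    calc _ ≤ H s * (1 * H s ^ (-ε)) ^ k := by
          gcongr
          exact mul_le_mul_of_nonneg_right (pow_le_one₀ (c0 s).le (c5 s)) (by positivity)
      _ = H s ^ (1 - ε * k) := by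
          rw [one_mul, ← Real.rpow_natCast, ← Real.rpow_mul (a4 s).le, sub_eq_add_neg,
            Real.rpow_add (a4 s), Real.rpow_one, neg_mul]
      _ ≤ 1 := Real.rpow_le_one_of_one_le_of_nonpos (h1 s)
          (sub_nonpos.2 ((inv_le_iff_one_le_mul₀' hε).1 hk))
  have d5 : ∀ s, 2 ^ D s * δ s ≤ 1 := fun s => by
    calc _ ≤ 2 ^ D s * c s ^ D s := by gcongr; exact d1 s
      _ = (2 * c s) ^ D s := (mul_pow _ _ _).symm
      _ ≤ 1 := pow_le_one₀ (by have := c0 s; positivity) (by linarith [c3 s])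
  have e1 : ∀ s, ∃ i, l s i ≠ 0 := fun s => by
    by_contra! e
    refine h5 s ?_
    have e2 : (fun i => (ψ s (l s i) : ℂ)) = l s := funext fun i => by simp [e i]
    rw [e2]
    exact h4 s
  choose i0 e1 using e1
  set u : ℕ → ℂ := fun s => Complex.exp (l s (i0 s)) - 1 with hu
  have u1 : ∀ s, u s ≠ 0 := fun s e => by
    have e2 := abs_lt.1 ((Complex.abs_im_le_norm (l s (i0 s))).trans_lt
      (((h3 s _).trans (d3 s)).trans_lt (by linarith [Real.two_le_pi] : (1 : ℝ) < Real.pi)))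
    refine e1 s ?_
    rw [← Complex.log_exp e2.1 e2.2.le, sub_eq_zero.1 e, Complex.log_one]
  have u2 : ∀ s, ‖u s‖ ≤ 2 * δ s := fun s =>
    (Complex.norm_exp_sub_one_le ((h3 s _).trans (d3 s))).trans (by gcongr; exact h3 s _)
  have v1 : ∀ s j, ‖v s j‖ ≤ H s := fun s j => by
    obtain ⟨K, _, _, φ, a, -, e2, e3⟩ := h2 s
    exact (congrArg norm (e3 (.inr j))).trans_le ((norm_le_height φ _).trans (e2 _))
  have z1 : ∀ s j, ‖v s j * u s ^ (k + 2)‖ ≤ δ s / 2 := fun s j => by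
    have := (d0 s).le
    have := (a4 s).le
    rw [norm_mul, norm_pow]
    calc _ ≤ H s * (2 * δ s) ^ (k + 2) := by gcongr; exacts [v1 s j, u2 s]
      _ = (H s * δ s ^ k) * (2 ^ (k + 2) * δ s * δ s) := by ring
      _ ≤ 1 * (2 ^ (k + 2) * (1 / 2) ^ (k + 3) * δ s) := by gcongr; exacts [d4 s, d2 s]
      _ = δ s / 2 := by
          rw [pow_succ (1 / 2 : ℝ) (k + 2), ← mul_assoc (2 ^ (k + 2)), ← mul_pow]
          norm_num
          ring
  have z2 : ∀ s j, ‖v s j * u s ^ (k + 2)‖ ≤ 1 / 2 := fun s j => by linarith [z1 s j, d3 s]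
  have z3 : ∀ s j, Complex.exp (Complex.log (1 + v s j * u s ^ (k + 2))) =
      1 + v s j * u s ^ (k + 2) := fun s j => Complex.exp_log fun e => by
    have e2 := z2 s j
    rw [eq_neg_of_add_eq_zero_right e] at e2
    norm_num at e2
  let L : ι ⊕ Option κ → ℕ → ℂ := Sum.elim (fun i s => l s i) fun o => o.elim (fun s => l s (i0 s))
    fun j s => Complex.log (1 + v s j * u s ^ (k + 2))
  have : Data (hyperfilter ℕ) L δ ((k + 1) * (k + 2 + 1)) D
      fun s => (2 ^ D s * H s) ^ (k + 2 + 1) := by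
    refine ⟨d0, d3, ?_, fun s => ?_, fun s => ⟨by have := a4 s; positivity, ?_⟩,
      fun C => Tendsto.mono_left ?_ Nat.hyperfilter_le_atTop⟩
    · rintro (i | _ | j) s
      · exact h3 s i
      · exact h3 s _
      · exact (Complex.norm_log_one_add_half_le_self (z2 s j)).trans (by linarith [z1 s j, d0 s])
    · obtain ⟨K, _, _, φ, a, e0, e2, e3⟩ := h2 s
      have e4 : H s ≤ (2 ^ D s * H s) ^ (k + 2 + 1) := by
        have e5 : H s ≤ 2 ^ D s * H s := le_mul_of_one_le_left (a4 s).le (one_le_pow₀ one_le_two)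
        exact e5.trans (le_self_pow₀ ((h1 s).trans e5) (by omega))
      refine ⟨K, _, ‹_›, φ, Sum.elim (fun i => a (.inl i)) fun o => o.elim (a (.inl (i0 s)))
        fun j => 1 + a (.inr j) * (a (.inl (i0 s)) - 1) ^ (k + 2), e0, ?_, ?_⟩
      · rintro (i | _ | j)
        · exact (e2 _).trans e4
        · exact (e2 _).trans e4
        · exact e0 ▸ aux_height (k + 2) (e2 _) (e2 _)
      · rintro (i | _ | j)
        · exact e3 (.inl i)
        · exact e3 (.inl _)
        · refine (z3 s j).trans ?_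
          have e5 : v s j = φ (a (.inr j)) := e3 (.inr j)
          have e6 : Complex.exp (l s (i0 s)) = φ (a (.inl (i0 s))) := e3 (.inl _)
          simp [hu, e5, e6]
    · have := (d0 s).le
      have := (a4 s).le
      calc _ = ((2 ^ D s * δ s) * (H s * δ s ^ k)) ^ (k + 2 + 1) := by ring
        _ ≤ 1 := pow_le_one₀ (by positivity) (mul_le_one₀ (d5 s) (by positivity) (d4 s))
    · have h6 := (tendsto_one_div_add_atTop_nhds_zero_nat (𝕜 := ℝ)).const_mul |C|
      rw [mul_zero] at h6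
      refine squeeze_zero_norm' ?_ h6
      filter_upwards [h6.eventually (ge_mem_nhds one_pos)] with s hs
      have := (d0 s).le
      have := (c0 s).le
      rw [norm_mul, norm_pow, Real.norm_eq_abs, Real.norm_of_nonneg (d0 s).le]
      calc _ ≤ |C| ^ D s * (1 / (s + 1)) ^ D s := by
            gcongr
            exact (d1 s).trans (pow_le_pow_left₀ this (c4 s) _)
        _ = (|C| * (1 / (s + 1))) ^ D s := (mul_pow _ _ _).symm
        _ ≤ _ := pow_le_of_le_one (by positivity) hs (a1 s)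
  obtain ⟨s, hs⟩ := (this.fam Sum.inl (fun j s => v s j)
    (fun j => ⟨.inr none, .inr (some j), k + 2, fun s => ⟨u1 s, by
      change _ = Complex.exp (Complex.log (1 + v s j * u s ^ (k + 2))) - 1
      rw [z3, add_sub_cancel_left]
      rfl⟩⟩) G h4 ψ).exists
  exact h5 s hs

end Pool.Agent.MP_3e7261_nt
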