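import Pool.Agent.MP_3e7261_nt.FreeB

/-! Elimination of a real or purely imaginary parameter. -/

set_option autoImplicit false
set_option linter.unusedSectionVars false

namespace Pool.Agent.MP_3e7261_nt

open Finset MvPolynomial Matrix

abbrev M4 (R : Type) : Type := Matrix (Fin 4) (Fin 4) R

section Ring

variable {R : Type} [CommRing R]

/-- The polar form of the Pfaffian. -/
def pb (A B : M4 R) : R := A 0 1 * B 2 3 - A 0 2 * B 1 3 + A 0 3 * B 1 2 + B 0 1 * A 2 3 -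
  B 0 2 * A 1 3 + B 0 3 * A 1 2

/-- The eliminant. -/
def elim (P Q N : M4 R) : R :=
  pf N * pb P Q ^ 2 - pb P Q * pb N P * pb N Q + (pf P + pf Q) * pb N P ^ 2

theorem pb_left (A B C : M4 R) (c : R) : pb (A + c • B) C = pb A C + c * pb B C := by
  simp only [pb, Matrix.add_apply, Matrix.smul_apply, smul_eq_mul]
  ring

theorem pb_right (A B C : M4 R) (c : R) : pb C (A + c • B) = pb C A + c * pb C B := by
  simp only [pb, Matrix.add_apply, Matrix.smul_apply, smul_eq_mul]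
  ring

theorem pf_add (A B : M4 R) (c : R) : pf (A + c • B) = pf A + c * pb A B + c ^ 2 * pf B := by
  simp only [pb, pf, Matrix.add_apply, Matrix.smul_apply, smul_eq_mul]
  ring

theorem pf_three (P Q N : M4 R) (t : R) : pf (P + Q + t • N) =
    (pf P + pf Q + t * pb N Q + t ^ 2 * pf N) + (pb P Q + t * pb N P) := by
  simp only [pb, pf, Matrix.add_apply, Matrix.smul_apply, smul_eq_mul]
  ring

end Ring

theorem dual_mul (ψ : ℂ →ₗ[ℚ] ℚ) (q : ℚ) (z : ℂ) : ψ ((q : ℂ) * z) = q * ψ z := by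
  rw [← Rat.smul_def, map_smul, smul_eq_mul]

theorem dual_mul' (ψ : ℂ →ₗ[ℚ] ℚ) (q : ℚ) (z : ℂ) : ψ (z * (q : ℂ)) = ψ z * q := by
  rw [mul_comm, dual_mul, mul_comm]

/-- The complex matrix of a rational matrix. -/
abbrev cst (N : M4 ℚ) : M4 ℂ := N.map fun q => (q : ℂ)

theorem dual_pb (ψ : ℂ →ₗ[ℚ] ℚ) (N : M4 ℚ) (P : M4 ℂ) : ψ (pb (cst N) P) = pb N (P.map ψ) := by
  simp only [pb, map_add, map_sub, Matrix.map_apply, dual_mul, dual_mul']

theorem dual_pb' (ψ : ℂ →ₗ[ℚ] ℚ) (N : M4 ℚ) (P : M4 ℂ) : ψ (pb P (cst N)) = pb (P.map ψ) N := by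
  simp only [pb, map_add, map_sub, Matrix.map_apply, dual_mul, dual_mul']

theorem map_lin (P : M4 ℂ) (ψ ψ' : ℂ →ₗ[ℚ] ℚ) (c : ℚ) :
    P.map ⇑(ψ + c • ψ') = P.map ψ + c • P.map ψ' := by
  ext i j
  simp

theorem exists_dual {z : ℂ} (h : z ≠ 0) : ∃ ψ : ℂ →ₗ[ℚ] ℚ, ψ z = 1 := by
  obtain ⟨ψ, hψ⟩ : ∃ ψ : ℂ →ₗ[ℚ] ℚ, ψ z ≠ 0 := by
    by_contra! e
    exact h ((Module.forall_dual_apply_eq_zero_iff ℚ z).1 e)
  exact ⟨(ψ z)⁻¹ • ψ, by simp [hψ]⟩

theorem expand {ι : Type} [Fintype ι] (z : ι → ℂ) : ∃ (σ : Type) (_ : Fintype σ) (y : σ → ℂ)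
    (ψ : σ → ℂ →ₗ[ℚ] ℚ), ∀ i, z i = ∑ j, (ψ j (z i) : ℂ) * y j := by
  classical
  let b := Module.Basis.ofVectorSpace ℚ ℂ
  let s := univ.biUnion fun i => (b.repr (z i)).support
  refine ⟨s, inferInstance, fun j => b j, fun j => b.coord j, fun i => ?_⟩
  have h := b.linearCombination_repr (z i)
  rw [Finsupp.linearCombination_apply, Finsupp.sum_of_support_subset _
    (subset_biUnion_of_mem (fun i => (b.repr (z i)).support) (mem_univ i)) _ (by simp)] at h
  rw [sum_coe_sort s fun j => (b.coord j (z i) : ℂ) * b j]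
  simpa [Rat.smul_def] using h.symm

theorem roy_dual {M : M4 ℂ} (hM : ∀ i j, M i j + M j i = 0)
    (h : ∀ ψ : ℂ →ₗ[ℚ] ℚ, pf (M.map ψ) = 0) :
    ¬ LinearIndependent ℚ (fun i : Fin 4 => (M i : Fin 4 → ℂ)) ∨ ∃ v : Fin 4 → ℚ, v ≠ 0 ∧
      (fun i : Fin 4 => ((v i : ℚ) : ℂ)) ∈ LinearMap.range M.mulVecLin := by
  obtain ⟨σ, _, y, ψ, e⟩ := expand fun p : Fin 4 × Fin 4 => M p.1 p.2
  refine roy hM ⟨σ, _, fun p j => ψ j (M p.1 p.2), y, e, fun P hP t => ?_⟩
  have e1 : (fun p : Fin 4 × Fin 4 => ∑ j, ψ j (M p.1 p.2) * t j) =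
      fun p => (∑ j, t j • ψ j) (M p.1 p.2) := funext fun p => by simp [mul_comm]
  rw [e1]
  rcases hP with rfl | ⟨p, rfl⟩
  · simpa [pf, -LinearMap.coe_sum] using h (∑ j, t j • ψ j)
  · simp only [map_add, aeval_X, Prod.fst_swap, Prod.snd_swap]
    rw [← map_add, hM, map_zero]

theorem alg (P Q : M4 ℂ) (N : M4 ℚ) (t : ℂ) (E1 : pb P Q + t * pb (cst N) P = 0)
    (h1 : pb (cst N) P ≠ 0) (h2 : pf N ≠ 0 ∨ pb (cst N) Q ≠ 0)
    (hG : ∀ ψ ψ' : ℂ →ₗ[ℚ] ℚ, elim (P.map ψ) (Q.map ψ') N = 0) (ψ : ℂ →ₗ[ℚ] ℚ) :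
    pf ((P + Q + t • cst N).map ψ) = 0 := by
  obtain ⟨ψ0, h0⟩ := exists_dual h1
  rw [dual_pb] at h0
  have sA : ∀ ψ1 ψ2 : ℂ →ₗ[ℚ] ℚ, pb N (P.map ψ1) = 0 → pb (P.map ψ1) (Q.map ψ2) = 0 := by
    intro ψ1 ψ2 h3
    by_cases hκ : pf N = 0
    · obtain ⟨ψ3, h4⟩ := exists_dual (h2.resolve_left (not_not.2 hκ))
      rw [dual_pb] at h4
      have h5 : ∀ ψ2 : ℂ →ₗ[ℚ] ℚ, pb (P.map ψ1) (Q.map ψ2) * pb N (Q.map ψ2) = 0 := fun ψ2 => by
        have e := fun c : ℚ => hG (ψ1 + c • ψ0) ψ2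
        simp only [elim, map_lin, pb_left, pb_right, pf_add, hκ, h3, h0] at e
        linear_combination (-2 / 3) * e 1 + (2 / 3) * e (-1) + (1 / 12) * e 2 - (1 / 12) * e (-2)
      have h6 := h5 ψ3
      have h7 := h5 ψ2
      have h8 := h5 (ψ2 + (1 : ℚ) • ψ3)
      simp only [map_lin, pb_right, h4, mul_one, one_mul] at h6 h8
      rw [h6] at h8
      linear_combination h8 - h7
    · have e := hG ψ1 ψ2
      simp only [elim, h3] at e
      have e2 : pf N * pb (P.map ψ1) (Q.map ψ2) ^ 2 = 0 := by linear_combination e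
      exact pow_eq_zero_iff two_ne_zero |>.1 ((mul_eq_zero.1 e2).resolve_left hκ)
  have sB : ∀ ψ1 ψ2 : ℂ →ₗ[ℚ] ℚ, pb (P.map ψ1) (Q.map ψ2) =
      pb N (P.map ψ1) * pb (P.map ψ0) (Q.map ψ2) := fun ψ1 ψ2 => by
    have e := sA (ψ1 + (-pb N (P.map ψ1)) • ψ0) ψ2 (by rw [map_lin, pb_right, h0]; ring)
    rw [map_lin, pb_left] at e
    linear_combination e
  have sC : pb P Q = pb (cst N) P * pb (cst (P.map ψ0)) Q := by
    obtain ⟨σ, _, y, χ, e⟩ := expand fun p : Fin 4 × Fin 4 => Q p.1 p.2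
    have e1 : ∀ A : M4 ℂ, pb A Q = ∑ j, pb A (cst (Q.map (χ j))) * y j := fun A => by
      have e2 : ∀ i k, Q i k = ∑ j, (χ j (Q i k) : ℂ) * y j := fun i k => e (i, k)
      conv_lhs => rw [pb, e2 2 3, e2 1 3, e2 1 2, e2 0 1, e2 0 2, e2 0 3]
      simp only [Finset.mul_sum, Finset.sum_mul, ← sum_add_distrib, ← sum_sub_distrib]
      refine sum_congr rfl fun j _ => ?_
      simp only [pb, Matrix.map_apply]
      ring
    rw [e1 P, e1 (cst _), Finset.mul_sum]
    refine sum_congr rfl fun j _ => ?_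
    have e3 : pb (cst (P.map ψ0)) (cst (Q.map (χ j))) = (pb (P.map ψ0) (Q.map (χ j)) : ℚ) := by
      simp [pb]
    rw [← mul_assoc, e3]
    refine congrArg (· * y j) (sub_eq_zero.1
      ((Module.forall_dual_apply_eq_zero_iff ℚ _).1 fun ψ1 => ?_))
    rw [map_sub, dual_mul', dual_pb', dual_pb, sB, sub_self]
  have ht : t = -pb (cst (P.map ψ0)) Q :=
    mul_right_cancel₀ h1 (by linear_combination E1 - sC)
  have hψ : ψ t = -pb (P.map ψ0) (Q.map ψ) := by rw [ht, map_neg, dual_pb]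
  have g1 : ∀ ψ1 ψ2 : ℂ →ₗ[ℚ] ℚ, pb N (P.map ψ1) ≠ 0 → pf (P.map ψ1) + pf (Q.map ψ2) -
      pb (P.map ψ0) (Q.map ψ2) * pb N (Q.map ψ2) + pb (P.map ψ0) (Q.map ψ2) ^ 2 * pf N = 0 :=
    fun ψ1 ψ2 h3 => by
      have e := hG ψ1 ψ2
      rw [elim, sB] at e
      exact mul_left_cancel₀ (pow_ne_zero 2 h3) (by linear_combination e)
  have g2 : ∀ ψ1 : ℂ →ₗ[ℚ] ℚ, pb N (P.map ψ1) ≠ 0 → pf (P.map ψ1) = 0 := fun ψ1 h3 => by
    simpa [pf, pb] using g1 ψ1 0 h3
  have g0 := g2 ψ0 (by simp [h0])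
  have g3 : pf (P.map ψ) = 0 := by
    by_cases h3 : pb N (P.map ψ) = 0
    · have e1 := g2 (ψ + (1 : ℚ) • ψ0) (by simp only [map_lin, pb_right, h3, h0]; norm_num)
      have e2 := g2 (ψ + (-1 : ℚ) • ψ0) (by simp only [map_lin, pb_right, h3, h0]; norm_num)
      rw [map_lin, pf_add] at e1 e2
      linear_combination (e1 + e2) / 2 - g0
    · exact g2 ψ h3
  have e : (P + Q + t • cst N).map ψ = P.map ψ + Q.map ψ + ψ t • N := by
    ext i j
    simp [dual_mul']
  rw [e, pf_three, hψ, sB ψ ψ]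
  linear_combination g1 ψ0 ψ (by simp [h0]) + g3 - g0

/-- A combination of matrices. -/
def comb {R : Type} [CommRing R] {r : ℕ} (C : Fin r → M4 R) (y : Fin r → R) : M4 R :=
  of fun i j => ∑ k, C k i j * y k

/-- The eliminant as a polynomial in the logarithms and the coefficients. -/
noncomputable def elimP (r : ℕ) :
    MvPolynomial ((Bool × Fin r) ⊕ (Option (Fin r) × Fin 4 × Fin 4)) ℚ :=
  elim (comb (fun k => of fun i j => X (.inr (some k, i, j))) fun k => X (.inl (true, k)))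
    (comb (fun k => of fun i j => X (.inr (some k, i, j))) fun k => X (.inl (false, k)))
    (of fun i j => X (.inr (none, i, j)))

theorem aeval_elimP {r : ℕ} (l : Bool × Fin r → ℂ) (C : Fin r → M4 ℚ) (N : M4 ℚ) :
    aeval (Sum.elim l fun p : Option (Fin r) × Fin 4 × Fin 4 =>
      ((p.1.elim N C p.2.1 p.2.2 : ℚ) : ℂ)) (elimP r) =
    elim (comb (fun k => cst (C k)) fun k => l (true, k))
      (comb (fun k => cst (C k)) fun k => l (false, k)) (cst N) := by
  simp [elimP, elim, comb, pf, pb]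

theorem comb_map {r : ℕ} (C : Fin r → M4 ℚ) (y : Fin r → ℂ) (ψ : ℂ →ₗ[ℚ] ℚ) :
    comb (fun k => cst (C k)) (fun k => (ψ (y k) : ℂ)) =
      cst ((comb (fun k => cst (C k)) y).map ψ) := by
  ext i j
  simp [comb, dual_mul]

theorem elim_cst (P Q N : M4 ℚ) : elim (cst P) (cst Q) (cst N) = (elim P Q N : ℚ) := by
  simp [elim, pf, pb]

open ComplexConjugate in
theorem free (r : ℕ) {ε : ℝ} (hε : 0 < ε) : ∃ c : ℝ, 0 < c ∧
    ∀ (K : Type) [Field K] [NumberField K] (φ : K →+* ℂ) (a b : Fin r → K) (H : ℝ) (x : Fin r → ℂ)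
      (C : Fin r → M4 ℚ) (N : M4 ℚ) (t : ℂ) (η : ℤ),
      (∀ k, Height.mulHeight₁ (a k) ≤ H) → (∀ k, Height.mulHeight₁ (b k) ≤ H) →
      (∀ k, Complex.exp (x k) = φ (a k)) → (∀ k, conj (φ (a k)) = φ (b k)) →
      (∀ k, ‖x k‖ ≤ c ^ Module.finrank ℚ K * H ^ (-ε)) →
      (∀ k i j, Height.mulHeight₁ (C k i j : K) ≤ H) → (∀ i j, Height.mulHeight₁ (N i j : K) ≤ H) →
      η.natAbs = 1 → conj t = -η * t →
      (pf (comb (fun k => cst (C k)) x)).im ≠ 0 →
      (pf N ≠ 0 ∨ (pf (comb (fun k => cst (C k)) x)).re ≠ 0) →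
      pf (comb (fun k => cst (C k)) x + t • cst N) = 0 →
      ∀ ψ : ℂ →ₗ[ℚ] ℚ, pf ((comb (fun k => cst (C k)) x + t • cst N).map ψ) = 0 := by
  obtain ⟨c, hc, h⟩ := family (elimP r) (half_pos hε)
  refine ⟨c / 2, half_pos hc, fun K _ _ φ a b H x C N t η h1 h2 h3 h4 h5 h6 h7 hη ht p1 p2 p3 ψ => ?_⟩
  have hH : 1 ≤ H := (Height.one_le_mulHeight₁ _).trans (h7 0 0)
  have hH2 : H ≤ H ^ 2 := le_self_pow₀ hH two_ne_zero
  have η2 : (η : ℂ) * η = 1 := by
    have := Int.natAbs_mul_self' η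
    rw [hη] at this
    exact_mod_cast this.symm
  let sg : Bool → ℤ := fun β => if β then η else -η
  have s1 : ∀ β, (sg β).natAbs = 1 := fun β => by cases β <;> simp [sg, hη]
  let l : Bool × Fin r → ℂ := fun p => x p.2 + sg p.1 * conj (x p.2)
  set P := comb (fun k => cst (C k)) fun k => l (true, k) with hP
  set Q := comb (fun k => cst (C k)) fun k => l (false, k) with hQ
  set X := comb (fun k => cst (C k)) x with hX
  have l1 : ∀ k, conj (l (true, k)) = η * l (true, k) := fun k => by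
    simp only [l, sg, if_true, map_add, map_mul, map_intCast, Complex.conj_conj]
    linear_combination (-conj (x k)) * η2
  have l2 : ∀ k, conj (l (false, k)) = -η * l (false, k) := fun k => by
    simp only [l, sg, Bool.false_eq_true, if_false, map_add, map_mul, map_intCast,
      Complex.conj_conj, Int.cast_neg, map_neg]
    linear_combination (-conj (x k)) * η2
  have cP : ∀ i j, conj (P i j) = η * P i j := fun i j => by
    simp only [hP, comb, of_apply, map_sum, map_mul, Matrix.map_apply, map_ratCast, l1,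
      Finset.mul_sum]
    exact sum_congr rfl fun k _ => by ring
  have cQ : ∀ i j, conj (Q i j) = -η * Q i j := fun i j => by
    simp only [hQ, comb, of_apply, map_sum, map_mul, Matrix.map_apply, map_ratCast, l2,
      Finset.mul_sum]
    exact sum_congr rfl fun k _ => by ring
  have e1 : ∀ i j, P i j + Q i j = 2 * X i j := fun i j => by
    simp only [hP, hQ, hX, comb, of_apply, l, sg, ← sum_add_distrib, Finset.mul_sum]
    refine sum_congr rfl fun k _ => ?_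
    simp only [if_true, Bool.false_eq_true, if_false, Int.cast_neg]
    ring
  have e2 : P + Q + (2 * t) • cst N = (2 : ℂ) • (X + t • cst N) := by
    ext i j
    simp only [Matrix.add_apply, Matrix.smul_apply, smul_eq_mul, e1]
    ring
  have e3 : ∀ A : M4 ℂ, pf ((2 : ℂ) • A) = 4 * pf A := fun A => by
    simp only [pf, Matrix.smul_apply, smul_eq_mul]
    ring
  have e4 : pf P + pf Q + pb P Q = 4 * pf X := by
    have := pf_three P Q (cst N) 0
    rw [zero_smul, add_zero, show P + Q = (2 : ℂ) • X from Matrix.ext e1, e3] at this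
    linear_combination -this
  have c1 : conj (pf P + pf Q) = pf P + pf Q := by
    simp only [pf, map_add, map_sub, map_mul, cP, cQ]
    linear_combination (P 0 1 * P 2 3 - P 0 2 * P 1 3 + P 0 3 * P 1 2 +
      (Q 0 1 * Q 2 3 - Q 0 2 * Q 1 3 + Q 0 3 * Q 1 2)) * η2
  have c2 : conj (pb P Q) = -pb P Q := by
    simp only [pb, map_add, map_sub, map_mul, cP, cQ]
    linear_combination (-(P 0 1 * Q 2 3 - P 0 2 * Q 1 3 + P 0 3 * Q 1 2 + Q 0 1 * P 2 3 -
      Q 0 2 * P 1 3 + Q 0 3 * P 1 2)) * η2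
  have c3 : conj (pb (cst N) P) = η * pb (cst N) P := by
    simp only [pb, map_add, map_sub, map_mul, cP, Matrix.map_apply, map_ratCast]
    ring
  have c4 : conj (pb (cst N) Q) = -η * pb (cst N) Q := by
    simp only [pb, map_add, map_sub, map_mul, cQ, Matrix.map_apply, map_ratCast]
    ring
  have c5 : pf (cst N) = (pf N : ℚ) := by simp [pf]
  have e5 := pf_three P Q (cst N) (2 * t)
  rw [e2, e3, p3, mul_zero, c5] at e5
  have e6 := congrArg conj e5
  rw [map_zero, map_add, map_add, map_add, map_add (f := conj) (pb P Q), c1, c2, map_mul, map_mul,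
    map_mul, map_mul, map_pow, map_mul, c3, c4, ht, map_ratCast, map_ofNat] at e6
  have E1 : pb P Q + 2 * t * pb (cst N) P = 0 := by
    linear_combination (e6 - e5) / 2 +
      (t * pb (cst N) Q + 2 * t ^ 2 * (pf N : ℚ) - t * pb (cst N) P) * η2
  have E2 : pf P + pf Q + 2 * t * pb (cst N) Q + (2 * t) ^ 2 * (pf N : ℚ) = 0 := by
    linear_combination -e5 - E1
  have n1 : pb (cst N) P ≠ 0 := fun e => by
    rw [e, mul_zero, add_zero] at E1
    rw [E1, add_zero] at e4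
    rw [e4, map_mul, map_ofNat] at c1
    exact p1 (Complex.conj_eq_iff_im.1 (mul_left_cancel₀ (by norm_num) c1))
  have n2 : pf N ≠ 0 ∨ pb (cst N) Q ≠ 0 := by
    by_contra! e
    refine p2.resolve_left (not_not.2 e.1) ?_
    rw [e.1, e.2] at E2
    have e7 : pb P Q = 4 * pf X := by
      push_cast at E2
      linear_combination e4 - E2
    rw [e7, map_mul, map_ofNat] at c2
    have e8 := congrArg Complex.re c2
    simp at e8
    linarith
  have hD : Module.finrank ℚ K ≠ 0 := Module.finrank_pos.ne'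
  have key := h (Module.finrank ℚ K) (H ^ 2) l
    (fun p : Option (Fin r) × Fin 4 × Fin 4 => ((p.1.elim N C p.2.1 p.2.2 : ℚ) : ℂ))
    (one_le_pow₀ hH) ⟨K, _, ‹_›, φ, Sum.elim (fun p => a p.2 * b p.2 ^ sg p.1)
      fun p => ((p.1.elim N C p.2.1 p.2.2 : ℚ) : K), rfl, ?_, ?_⟩ (fun p => ?_) ?_
  · have hG : ∀ ψ1 ψ2 : ℂ →ₗ[ℚ] ℚ, elim (P.map ψ1) (Q.map ψ2) N = 0 := fun ψ1 ψ2 => by
      let cj : ℂ →ₗ[ℚ] ℂ := (starRingEnd ℂ).toAddMonoidHom.toRatLinearMap
      have e7 := key (ψ1 ∘ₗ ((1 / 2 : ℚ) • (LinearMap.id + (η : ℚ) • cj)) +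
        ψ2 ∘ₗ ((1 / 2 : ℚ) • (LinearMap.id - (η : ℚ) • cj)))
      have f1 : ∀ z : ℂ, ((1 / 2 : ℚ) • (LinearMap.id + (η : ℚ) • cj) : ℂ →ₗ[ℚ] ℂ) z =
          (z + η * conj z) / 2 := fun z => by
        simp [cj, Rat.smul_def]
        ring
      have f2 : ∀ z : ℂ, ((1 / 2 : ℚ) • (LinearMap.id - (η : ℚ) • cj) : ℂ →ₗ[ℚ] ℂ) z =
          (z - η * conj z) / 2 := fun z => by
        simp [cj, Rat.smul_def]
        ring
      have f3 : ∀ z : ℂ, (z + η * (η * z)) / 2 = z := fun z => by linear_combination z / 2 * η2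
      have f4 : ∀ z : ℂ, (z - η * (η * z)) / 2 = 0 := fun z => by linear_combination -z / 2 * η2
      have f5 : ∀ z : ℂ, (z + η * (-η * z)) / 2 = 0 := fun z => by linear_combination -z / 2 * η2
      have f6 : ∀ z : ℂ, (z - η * (-η * z)) / 2 = z := fun z => by linear_combination z / 2 * η2
      rw [aeval_elimP] at e7
      simp only [LinearMap.add_apply, LinearMap.comp_apply, f1, f2, l1, l2, f3, f4, f5, f6, map_zero,
        add_zero, zero_add, comb_map, elim_cst] at e7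
      exact_mod_cast e7
    have e7 := alg P Q N (2 * t) E1 n1 n2 hG ψ
    have e8 : ((2 : ℂ) • (X + t • cst N)).map ψ = (2 : ℚ) • (X + t • cst N).map ψ := by
      ext i j
      have e9 := dual_mul ψ 2 ((X + t • cst N) i j)
      rw [Rat.cast_ofNat] at e9
      exact e9
    rw [e2, e8] at e7
    simp only [pf, Matrix.smul_apply, smul_eq_mul] at e7 ⊢
    linear_combination e7 / 4
  · rintro (⟨β, k⟩ | ⟨_ | k, i, j⟩)
    · refine (Height.mulHeight₁_mul_le _ _).trans ?_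
      rw [Height.mulHeight₁_zpow, s1, pow_one, sq]
      exact mul_le_mul (h1 k) (h2 k) (Height.mulHeight₁_nonneg _) (zero_le_one.trans hH)
    · exact (h7 i j).trans hH2
    · exact (h6 k i j).trans hH2
  · rintro (⟨β, k⟩ | p)
    · simp only [Sum.elim_inl, l, Complex.exp_add, Complex.exp_int_mul, Complex.exp_conj, h3, h4,
        map_mul, map_zpow₀]
    · simp
  · have e7 : ‖(sg p.1 : ℂ)‖ = 1 := by
      rw [Complex.norm_intCast, ← Int.cast_abs, Int.abs_eq_natAbs, s1]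
      simp
    have e8 : (H ^ 2) ^ (-(ε / 2)) = H ^ (-ε) := by
      rw [← Real.rpow_natCast, ← Real.rpow_mul (zero_le_one.trans hH)]
      congr 1
      push_cast
      ring
    have e9 : 2 * (c / 2) ^ Module.finrank ℚ K ≤ c ^ Module.finrank ℚ K := by
      rw [div_pow, mul_div_assoc', div_le_iff₀ (by positivity), mul_comm]
      gcongr
      exact le_self_pow₀ one_le_two hD
    have e10 : 0 ≤ H ^ (-ε) := by positivity
    refine (norm_add_le _ _).trans ?_
    rw [norm_mul, e7, one_mul, Complex.norm_conj, e8]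
    nlinarith [h5 p.2]
  · rw [aeval_elimP, ← hP, ← hQ, elim, c5]
    linear_combination pb (cst N) P ^ 2 * E2 + ((pf N : ℚ) * (pb P Q - 2 * t * pb (cst N) P) -
      pb (cst N) P * pb (cst N) Q) * E1

end Pool.Agent.MP_3e7261_nt
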