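import Pool.Agent.MP_3e7261_nt.FreeC

/-! Matrices in the rational span of small logarithms. -/

set_option autoImplicit false

namespace Pool.Agent.MP_3e7261_nt

open Finset MvPolynomial Matrix

/-- The Pfaffian of a combination as a polynomial in the logarithms and the coefficients. -/
noncomputable def pfP (r : ℕ) : MvPolynomial (Fin r ⊕ (Fin r × Fin 4 × Fin 4)) ℚ :=
  pf (comb (fun k => of fun i j => X (.inr (k, i, j))) fun k => X (.inl k))

theorem aeval_pfP {r : ℕ} (l : Fin r → ℂ) (C : Fin r → M4 ℚ) :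
    aeval (Sum.elim l fun p : Fin r × Fin 4 × Fin 4 => ((C p.1 p.2.1 p.2.2 : ℚ) : ℂ)) (pfP r) =
      pf (comb (fun k => cst (C k)) l) := by
  simp [pfP, comb, pf]

theorem span (r : ℕ) {ε : ℝ} (hε : 0 < ε) : ∃ c : ℝ, 0 < c ∧
    ∀ (K : Type) [Field K] [NumberField K] (φ : K →+* ℂ) (a : Fin r → K) (H : ℝ) (x : Fin r → ℂ)
      (C : Fin r → M4 ℚ), 1 ≤ H → (∀ k, Height.mulHeight₁ (a k) ≤ H) →
      (∀ k, Complex.exp (x k) = φ (a k)) →
      (∀ k, ‖x k‖ ≤ c ^ Module.finrank ℚ K * H ^ (-ε)) →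
      (∀ k i j, Height.mulHeight₁ (C k i j : K) ≤ H) →
      pf (comb (fun k => cst (C k)) x) = 0 →
      ∀ ψ : ℂ →ₗ[ℚ] ℚ, pf ((comb (fun k => cst (C k)) x).map ψ) = 0 := by
  obtain ⟨c, hc, h⟩ := family (pfP r) hε
  refine ⟨c, hc, fun K _ _ φ a H x C hH h1 h2 h3 h4 h5 ψ => ?_⟩
  have e := h (Module.finrank ℚ K) H x
    (fun p : Fin r × Fin 4 × Fin 4 => ((C p.1 p.2.1 p.2.2 : ℚ) : ℂ)) hH
    ⟨K, _, ‹_›, φ, Sum.elim a fun p => ((C p.1 p.2.1 p.2.2 : ℚ) : K), rfl, ?_, ?_⟩ h3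
    ((aeval_pfP x C).trans h5) ψ
  · rw [aeval_pfP, comb_map] at e
    have e1 : ∀ A : M4 ℚ, pf (cst A) = (pf A : ℚ) := fun A => by simp [pf]
    rw [e1] at e
    exact_mod_cast e
  · rintro (k | p)
    · exact h1 k
    · exact h4 _ _ _
  · rintro (k | p)
    · exact h2 k
    · simp

end Pool.Agent.MP_3e7261_nt
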